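import Pool.Agent.Lib.MP_be7f9f_nt.Fac

/-!
# Profile theorem for infinite Sidon sets: definitions

Let `u : ℝ → ℝ` satisfy `u t ≤ (1/2 - δ) t` and, for `1 ≤ s < t`,
`u s + u t ≤ s - δ t` or `2 u s + u t ≤ (1 - δ) t`.  Then there is an infinite Sidon set `A` with
`|A ∩ [1, n]| ≥ exp (u (log n))` for all large `n`.

Construction: block `k` consists of numbers with `k` digits (mixed base `4 q i`), the discrete
logarithms (shifted by `q i`) of the primes `p ∈ Pr (D k)`, `4 ^ (D k)` a little larger than the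
supremum of `exp ∘ u` over the range served by block `k`; the bad primes are deleted.
-/

namespace BGP

open BG

/-- The blocks `k ≥ k₀`; block `k` is indexed by the primes of `Pr (D k)`, bad primes deleted. -/
def AP (D : ℕ → ℕ) (k₀ : ℕ) (q : ℕ → ℕ) (lg : ℕ → ℕ → ℕ) : Set ℕ :=
  {a | ∃ k, k₀ ≤ k ∧ ∃ p ∈ Pr (D k),
    (∀ j ∈ Finset.Ico k₀ k, ¬ Bad 1 (QQ q j) (RR q j k) (Pr (D k)) (Pr (D j)) p) ∧
    a = el q lg k p}

/-- The elements of block `k` are at most `4 ^ TT k`. -/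
def TT (k : ℕ) : ℕ := NN k + 2 * k

/-- The values of `u / log 4` at the points `1 ≤ r ≤ log 4 * TT (k+1)`. -/
def VS (u : ℝ → ℝ) (k : ℕ) : Set ℝ :=
  {x | ∃ r : ℝ, 1 ≤ r ∧ r ≤ Real.log 4 * TT (k + 1) ∧ x = u r / Real.log 4}

/-- Supremum of `u / log 4` on `[1, log 4 * TT (k+1)]`. -/
noncomputable def VV (u : ℝ → ℝ) (k : ℕ) : ℝ := sSup (VS u k)

/-- The primes of block `k` are those of `Pr (DP u δ k)`. -/
noncomputable def DP (u : ℝ → ℝ) (δ : ℝ) (k : ℕ) : ℕ := ⌊VV u k + δ / 100 * TT k⌋₊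

/-- The hypotheses on the profile `u`. -/
structure Prof (u : ℝ → ℝ) (δ : ℝ) : Prop where
  pos : 0 < δ
  le : δ ≤ 1 / 4
  half : ∀ t, 1 ≤ t → u t ≤ (1 / 2 - δ) * t
  pair : ∀ s t, 1 ≤ s → s < t → u s + u t ≤ s - δ * t ∨ 2 * u s + u t ≤ (1 - δ) * t

theorem NN_succ (k : ℕ) : NN (k + 1) = NN k + k := by
  unfold NN; rw [Finset.sum_range_succ]

theorem NN_real (k : ℕ) : (NN k : ℝ) = (k : ℝ) * ((k : ℝ) - 1) / 2 := by
  induction k with
  | zero => simp [NN]
  | succ n ih => rw [NN_succ]; push_cast; rw [ih]; ring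

theorem TT_succ (k : ℕ) : TT (k + 1) = TT k + k + 2 := by
  unfold TT; rw [NN_succ]; ring

theorem TT_real (k : ℕ) : (TT k : ℝ) = (k : ℝ) * ((k : ℝ) + 3) / 2 := by
  unfold TT; push_cast; rw [NN_real]; ring

theorem TT_mono {j k : ℕ} (h : j ≤ k) : TT j ≤ TT k := by
  induction k, h using Nat.le_induction with
  | base => exact le_rfl
  | succ n _ ih => rw [TT_succ]; omega

/-- Linear functions of `k` are eventually smaller than `δ * TT k`. -/
theorem TT_large {δ : ℝ} (hδ : 0 < δ) (a b : ℝ) : ∃ k₀ : ℕ, ∀ k : ℕ, k₀ ≤ k →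
    a * k + b ≤ δ * TT k := by
  obtain ⟨n, hn⟩ := exists_nat_ge ((|a| + |b| + 1) * 2 / δ)
  refine ⟨n + 1, fun k hk => ?_⟩
  have h1 : ((n : ℝ) + 1) ≤ k := by exact_mod_cast hk
  have h2 : (|a| + |b| + 1) * 2 ≤ δ * n := by
    rw [div_le_iff₀ hδ] at hn
    linarith
  rw [TT_real]
  have hk1 : (1 : ℝ) ≤ k := by
    have : (0 : ℝ) ≤ n := Nat.cast_nonneg n
    linarith
  have h3 : a * k + b ≤ (|a| + |b|) * k := by
    have := le_abs_self a
    have := le_abs_self b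
    have := abs_nonneg b
    nlinarith
  have h4 : (|a| + |b| + 1) * 2 * k ≤ δ * k * k := by
    have : δ * n ≤ δ * k := mul_le_mul_of_nonneg_left (by linarith) hδ.le
    nlinarith
  nlinarith [abs_nonneg a, abs_nonneg b]

end BGP
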