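import Pool.Agent.Lib.MP_be7f9f_nt_P.PV

/-!
# The pair condition for the block exponents

* `pairV`.  Let `j < k`, `r_j, r_k` from `exists_near`, `x_j = r_j / L`, `x_k = r_k / L`, so
  `x_j ≤ TT (j+1) = TT j + j + 2`, `x_k ≤ TT (k+1)`; write `V_j = VV u j`, `V_k = VV u k`.
  `V_j ≤ (1/2 - δ) TT (j+1)`.
  Case 1: `x_k ≤ TT (j+1)`.  Then `u r_k / L ≤ V_j`, so `V_k ≤ V_j + 1`.
    If `TT k ≤ 2 TT j`: `V_j + V_k ≤ 2 V_j + 1 ≤ (1 - 2δ) (TT j + j + 2) + 1 ≤ (1 - δ/2) TT j ≤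
    TT j - (δ/4) TT k` for `j` large.
    If `TT k > 2 TT j`: `2 V_j + V_k ≤ 3 V_j + 1 ≤ (3/2) (TT j + j + 2) + 1 ≤ 2 (1 - δ/4) TT j ≤
    (1 - δ/4) TT k` for `j` large (`δ ≤ 1/4`).
  Case 2: `x_k > TT (j+1) ≥ x_j`, so `1 ≤ r_j < r_k`; use `Prof.pair`.
    First alternative: `V_j + V_k - 2 ≤ x_j - δ x_k`.  If `TT k ≤ 2 x_k` then
    `V_j + V_k ≤ TT (j+1) - (δ/2) TT k + 2 ≤ TT j - (δ/4) TT k` as `j + 4 ≤ (δ/4) TT k` for `k`
    large.  If `TT k > 2 x_k`: `V_j ≤ x_j / 2 + 1`, so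
    `2 V_j + V_k ≤ (3/2) x_j + 3 ≤ (3/4) TT k + 3 ≤ (1 - δ/4) TT k` for `k` large.
    Second alternative: `2 V_j + V_k - 3 ≤ (1 - δ) x_k ≤ (1 - δ) (TT k + k + 2)`, so
    `2 V_j + V_k ≤ (1 - δ/4) TT k` for `k` large.
  (`TT_large` gives all the `large` statements.)
-/

namespace BGP

open BG

variable {u : ℝ → ℝ} {δ : ℝ}

theorem pairV (hu : Prof u δ) : ∃ k₀ : ℕ, ∀ j k : ℕ, k₀ ≤ j → j < k →
    VV u j + VV u k ≤ TT j - δ / 4 * TT k ∨ 2 * VV u j + VV u k ≤ (1 - δ / 4) * TT k := by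
  have hδ := hu.pos
  have hδ4 := hu.le
  obtain ⟨k₀, hk₀⟩ := TT_large (δ := δ / 4) (by linarith) 1 5
  refine ⟨k₀, fun j k hj hjk => ?_⟩
  have hL : 0 < Real.log 4 := Real.log_pos (by norm_num)
  have hTj := hk₀ j hj
  have hTk := hk₀ k (hj.trans hjk.le)
  have hjk' : (j : ℝ) + 1 ≤ k := by exact_mod_cast hjk
  have hj0 : (0 : ℝ) ≤ j := Nat.cast_nonneg j
  have hTj0 : (0 : ℝ) ≤ TT j := Nat.cast_nonneg _
  have hTk0 : (0 : ℝ) ≤ TT k := Nat.cast_nonneg _
  have hsj : ((TT (j + 1) : ℕ) : ℝ) = TT j + j + 2 := by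
    rw [TT_succ]
    push_cast
    ring
  have hsk : ((TT (k + 1) : ℕ) : ℝ) = TT k + k + 2 := by
    rw [TT_succ]
    push_cast
    ring
  have hTj16 : 16 * ((j : ℝ) + 5) ≤ TT j := by nlinarith
  have hTk16 : 16 * ((k : ℝ) + 5) ≤ TT k := by nlinarith
  have hVj := VV_le hu j
  rw [hsj] at hVj
  obtain ⟨rj, hrj1, hrj2, hrj3⟩ := exists_near hu j
  obtain ⟨rk, hrk1, hrk2, hrk3⟩ := exists_near hu k
  rw [hsj] at hrj2
  rw [hsk] at hrk2
  have hVj2 : VV u j ≤ (TT j + j + 2) / 2 := by nlinarith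
  by_cases hc : rk ≤ Real.log 4 * TT (j + 1)
  · have h1 := le_VV hu j hrk1 hc
    have h2 : u rk / Real.log 4 ≤ VV u j := by
      rw [div_le_iff₀ hL]
      linarith
    have h3 : VV u k ≤ VV u j + 1 := by linarith
    by_cases h4 : (TT k : ℝ) ≤ 2 * TT j
    · left
      nlinarith
    · right
      rw [not_le] at h4
      nlinarith
  · rw [not_le, hsj] at hc
    have hlt : rj < rk := lt_of_le_of_lt hrj2 hc
    -- `x_j = rj / L`, `x_k = rk / L`
    obtain ⟨xj, hxj⟩ : ∃ x, x = rj / Real.log 4 := ⟨_, rfl⟩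
    obtain ⟨xk, hxk⟩ : ∃ x, x = rk / Real.log 4 := ⟨_, rfl⟩
    have hxj' : rj = xj * Real.log 4 := by rw [hxj]; field_simp
    have hxk' : rk = xk * Real.log 4 := by rw [hxk]; field_simp
    have hxj0 : 0 < xj := by rw [hxj]; exact div_pos (by linarith) hL
    have hxjT : xj ≤ TT j + j + 2 := by
      rw [hxj, div_le_iff₀ hL]
      linarith
    have hxkT : xk ≤ TT k + k + 2 := by
      rw [hxk, div_le_iff₀ hL]
      linarith
    have hxlt : xj < xk := by
      rw [hxj, hxk]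
      exact div_lt_div_of_pos_right hlt hL
    have huj : (VV u j - 1) * Real.log 4 ≤ u rj := (le_div_iff₀ hL).1 hrj3
    have huk : (VV u k - 1) * Real.log 4 ≤ u rk := (le_div_iff₀ hL).1 hrk3
    rcases hu.pair rj rk hrj1 hlt with h1 | h1
    · have h2 : VV u j + VV u k - 2 ≤ xj - δ * xk := by
        have h3 : (VV u j + VV u k - 2) * Real.log 4 ≤ (xj - δ * xk) * Real.log 4 := by
          rw [hxj', hxk'] at h1
          rw [hxj'] at huj
          rw [hxk'] at huk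
          linarith
        exact le_of_mul_le_mul_right h3 hL
      by_cases h4 : (TT k : ℝ) ≤ 2 * xk
      · left
        nlinarith
      · right
        rw [not_le] at h4
        have h5 : VV u j ≤ xj / 2 + 1 := by
          have h6 := hu.half rj hrj1
          have h7 : (VV u j - 1) * Real.log 4 ≤ (xj / 2) * Real.log 4 := by
            rw [hxj'] at h6 huj
            have h8 : 0 ≤ δ * (xj * Real.log 4) := by positivity
            nlinarith
          have := le_of_mul_le_mul_right h7 hL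
          linarith
        have h6 : 0 ≤ δ * xk := by
          have : 0 < xk := hxj0.trans hxlt
          positivity
        nlinarith
    · right
      have h2 : 2 * VV u j + VV u k - 3 ≤ (1 - δ) * xk := by
        have h3 : (2 * VV u j + VV u k - 3) * Real.log 4 ≤ ((1 - δ) * xk) * Real.log 4 := by
          rw [hxk'] at h1 huk
          linarith
        exact le_of_mul_le_mul_right h3 hL
      have h3 : (1 - δ) * xk ≤ (1 - δ) * (TT k + k + 2) :=
        mul_le_mul_of_nonneg_left hxkT (by linarith)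
      nlinarith

end BGP
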