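import Pool.Agent.Lib.MP_be7f9f_nt_P.PReg
import Pool.Agent.Lib.MP_be7f9f_nt_P.PPair

/-!
# Asymptotics

`asyP`.  By `pairV` there are two cases (`j < k` large; `DP_near`; `TT k = NN k + 2 k`; also
`DP k + 1 ≤ NN k ≤ k ^ 2` by `regP`).
* `VV j + VV k ≤ TT j - (δ/4) TT k`: then `DP k + DP j + 3 ≤ TT j - (δ/4) TT k + (δ/50) TT k + 3
  ≤ NN j + 2 j + 3 - (δ/5) TT k ≤ NN j`.
* `2 VV j + VV k ≤ (1 - δ/4) TT k`: then `DP k + 2 DP j ≤ (1 - δ/4) TT k + (3δ/100) TT k ≤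
  NN k + 2 k - (δ/5) TT k ≤ NN k - k` (`3 k ≤ (δ/5) TT k`) and `2304 k C (DP k + 1) ≤
  2304 C k ^ 3 ≤ 4 ^ k`.

`growV`.  `u t ≤ log 4 * VV u k` (`le_VV`; `t ≥ 1` for `k ≥ 1`), so `exp (u t) ≤ 4 ^ (VV u k)`
(real power), `VV u k ≤ DP k + 1 - (δ/100) TT k ≤ DP k - k`, and `2 C (DP k + 1) ≤ 2 C k ^ 2 ≤ 4 ^ k`.
-/

namespace BGP

open BG

variable {u : ℝ → ℝ} {δ : ℝ}

private theorem PAsy_exp (C : ℕ) : ∃ k₀ : ℕ, ∀ k : ℕ, k₀ ≤ k → C * k ^ 3 ≤ 4 ^ k := by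
  have h1 := tendsto_pow_const_div_const_pow_of_one_lt 3 (r := (4 : ℝ)) (by norm_num)
  have h2 : (0 : ℝ) < 1 / ((C : ℝ) + 1) := by positivity
  obtain ⟨k₀, hk⟩ := Filter.eventually_atTop.1 (h1.eventually_lt_const h2)
  refine ⟨k₀, fun k h => ?_⟩
  have h3 := hk k h
  rw [div_lt_div_iff₀ (by positivity) (by positivity), one_mul] at h3
  have h4 : (0 : ℝ) ≤ (k : ℝ) ^ 3 := by positivity
  have h5 : (C : ℝ) * (k : ℝ) ^ 3 ≤ 4 ^ k := by nlinarith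
  exact_mod_cast h5

private theorem PAsy_NN (k : ℕ) : NN k ≤ k ^ 2 := by
  have h1 := NN_real k
  have h2 : (0 : ℝ) ≤ k := Nat.cast_nonneg k
  have h3 : (NN k : ℝ) ≤ (k : ℝ) ^ 2 := by
    rw [h1]
    nlinarith
  exact_mod_cast h3

private theorem PAsy_TT (k : ℕ) : (TT k : ℝ) = NN k + 2 * k := by
  unfold TT
  push_cast
  ring

/-- numbers of the primes against `4 ^ k` -/
private theorem PAsy_big (hu : Prof u δ) (C : ℕ) : ∃ k₀ : ℕ, ∀ k : ℕ, k₀ ≤ k →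
    C * k * (DP u δ k + 1) ≤ 4 ^ k := by
  obtain ⟨k1, -, h1⟩ := regP hu
  obtain ⟨k2, h2⟩ := PAsy_exp C
  refine ⟨k1 + k2, fun k hk => ?_⟩
  obtain ⟨-, h3, -⟩ := h1 k (by omega)
  have h4 := PAsy_NN k
  calc C * k * (DP u δ k + 1) ≤ C * k * k ^ 2 := Nat.mul_le_mul_left _ (by omega)
    _ = C * k ^ 3 := by ring
    _ ≤ 4 ^ k := h2 k (by omega)

theorem asyP (hu : Prof u δ) (C : ℕ) : ∃ k₀ : ℕ, ∀ j k : ℕ, k₀ ≤ j → j < k →
    DP u δ k + DP u δ j + 3 ≤ NN j ∨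
    2304 * k * C * (DP u δ k + 1) * 4 ^ (DP u δ k + 2 * DP u δ j) ≤ 4 ^ NN k := by
  have hδ := hu.pos
  obtain ⟨k1, h1⟩ := DP_near hu
  obtain ⟨k2, h2⟩ := pairV hu
  obtain ⟨k3, h3⟩ := TT_large (δ := δ / 5) (by positivity) 3 3
  obtain ⟨k4, h4⟩ := PAsy_big hu (2304 * C)
  refine ⟨k1 + k2 + k3 + k4, fun j k hj hjk => ?_⟩
  have a1 := (h1 j (by omega)).1
  have a2 := (h1 k (by omega)).1
  have a3 := h3 k (by omega)
  have a4 : (TT j : ℝ) ≤ TT k := by exact_mod_cast TT_mono hjk.le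
  have a5 : δ * (TT j : ℝ) ≤ δ * TT k := mul_le_mul_of_nonneg_left a4 hδ.le
  have a6 : (j : ℝ) ≤ k := by exact_mod_cast hjk.le
  have a7 : (0 : ℝ) ≤ TT k := Nat.cast_nonneg _
  have a8 : 0 ≤ δ * (TT k : ℝ) := mul_nonneg hδ.le a7
  rcases h2 j k (by omega) hjk with h5 | h5
  · left
    have h6 := PAsy_TT j
    have h7 : ((DP u δ k : ℕ) : ℝ) + (DP u δ j : ℕ) + 3 ≤ NN j := by
      have e1 : (k : ℝ) ≥ 0 := Nat.cast_nonneg k
      linarith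
    exact_mod_cast h7
  · right
    have h6 := PAsy_TT k
    have h7 : ((DP u δ k : ℕ) : ℝ) + 2 * (DP u δ j : ℕ) + k ≤ NN k := by
      linarith
    have h8 : DP u δ k + 2 * DP u δ j + k ≤ NN k := by exact_mod_cast h7
    calc 2304 * k * C * (DP u δ k + 1) * 4 ^ (DP u δ k + 2 * DP u δ j)
        = (2304 * C * k * (DP u δ k + 1)) * 4 ^ (DP u δ k + 2 * DP u δ j) := by ring
      _ ≤ 4 ^ k * 4 ^ (DP u δ k + 2 * DP u δ j) := Nat.mul_le_mul_right _ (h4 k (by omega))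
      _ = 4 ^ (DP u δ k + 2 * DP u δ j + k) := by rw [← pow_add, add_comm]
      _ ≤ 4 ^ NN k := Nat.pow_le_pow_right (by norm_num) h8

private theorem PAsy_log : 1 ≤ Real.log 4 := by
  rw [Real.le_log_iff_exp_le (by norm_num)]
  have := Real.exp_one_lt_d9
  linarith

theorem growV (hu : Prof u δ) (C : ℕ) : ∃ k₀ : ℕ, ∀ k : ℕ, k₀ ≤ k → ∀ t : ℝ,
    Real.log 4 * TT k ≤ t → t ≤ Real.log 4 * TT (k + 1) →
    Real.exp (u t) * (2 * C * (DP u δ k + 1)) ≤ 4 ^ DP u δ k := by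
  have hδ := hu.pos
  have hL := PAsy_log
  obtain ⟨k1, h1⟩ := DP_near hu
  obtain ⟨k2, h2⟩ := TT_large (δ := δ / 100) (by positivity) 1 1
  obtain ⟨k3, h3⟩ := PAsy_big hu (2 * C)
  refine ⟨k1 + k2 + k3 + 1, fun k hk t ht1 ht2 => ?_⟩
  have a1 := (h1 k (by omega)).2
  have a2 := h2 k (by omega)
  have hk1 : (1 : ℝ) ≤ k := by exact_mod_cast (by omega : 1 ≤ k)
  have hT1 : (1 : ℝ) ≤ TT k := by
    rw [PAsy_TT]
    have : (0 : ℝ) ≤ NN k := Nat.cast_nonneg _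
    linarith
  have ht : 1 ≤ t := by nlinarith
  have a3 := le_VV hu k ht ht2
  have a4 : Real.log 4 * VV u k ≤ Real.log 4 * ((DP u δ k : ℝ) - k) :=
    mul_le_mul_of_nonneg_left (by linarith) (by linarith)
  have hexp : ∀ n : ℕ, Real.exp (Real.log 4 * (n : ℝ)) = 4 ^ n := by
    intro n
    rw [mul_comm, Real.exp_nat_mul, Real.exp_log (by norm_num)]
  have a5 : (2 * (C : ℝ) * ((DP u δ k : ℝ) + 1)) ≤ Real.exp (Real.log 4 * (k : ℝ)) := by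
    rw [hexp]
    have h4 : 2 * C * (DP u δ k + 1) ≤ 4 ^ k := by
      refine le_trans ?_ (h3 k (by omega))
      refine Nat.mul_le_mul_right _ ?_
      exact Nat.le_mul_of_pos_right _ (by omega)
    exact_mod_cast h4
  have a6 : Real.exp (u t) ≤ Real.exp (Real.log 4 * ((DP u δ k : ℝ) - k)) :=
    Real.exp_le_exp.2 (a3.trans a4)
  calc Real.exp (u t) * (2 * C * (DP u δ k + 1))
      ≤ Real.exp (Real.log 4 * ((DP u δ k : ℝ) - k)) * Real.exp (Real.log 4 * (k : ℝ)) :=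
        mul_le_mul a6 a5 (by positivity) (Real.exp_pos _).le
    _ = Real.exp (Real.log 4 * (DP u δ k : ℝ)) := by
        rw [← Real.exp_add]
        congr 1
        ring
    _ = 4 ^ DP u δ k := hexp _

end BGP
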