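import Pool.Agent.Lib.MP_be7f9f_nt_P.Defs

/-!
# The number of bad primes

Notation: `Q = QQ q j`, `R = RR q j k`, `P = 4 ^ D`, `Y = 4 ^ d`; `Q`, `R` coprime,
`Q * R ≥ 4 ^ NN k`, `Q ≥ 4 ^ NN j` (use `QQ_bounds`, `RR_bounds`, `QR_coprime`, `coprime_of_lt` of
`Fac.lean` with `f = fun i : Fin k => q i`, `ext_restrict`; `QQ q j * RR q j k = QQ q k`).

Proof.  Let `p₀` be bad: `p₀, p₁ ∈ (P, 4P]` and `r₀, r₁ ∈ (Y, 4Y]` primes, `(p₀, r₀) ≠ (p₁, r₁)`,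
`p₁ ≡ p₀` mod `R`, `p₁ r₁ ≡ p₀ r₀` mod `Q`.  All four primes are coprime to `Q R`.
* `p₀ = p₁` would give `Q ∣ r₁ - r₀`, `|r₁ - r₀| < 3 Y ≤ Q` (`d + 1 ≤ NN j`), so `r₀ = r₁`; no.
* Put `p₁ - p₀ = m R`, `m ≠ 0`, `|m| R ≤ 3 P`, and `p₁ r₁ - p₀ r₀ = s Q`, `|s| Q ≤ 16 P Y`.
  `s ≠ 0`: otherwise the prime `p₁` divides `p₀ r₀`, so `p₁ = p₀` (no) or
  `p₁ = r₀ ≤ 4 Y ≤ P < p₁` (no; `d < D`).
* `r₀ ≠ r₁`: if `r₀ = r₁ = r` then `m R r = s Q`, so `Q ∣ m`, `Q ≤ |m|` and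
  `4 ^ NN k ≤ Q R ≤ 3 P < 4 ^ (2 D + 2)`, no.
* `p₀ (r₁ - r₀) = s Q - m R r₁`, so `p₀` divides the nonzero number `N = s Q - m R r₁`,
  `|N| = p₀ |r₁ - r₀| ≤ 4 P * 3 Y ≤ 3 P ^ 2` (`4 Y ≤ P`).  A nonzero number `< P ^ 3`
  (`P = 4 ^ D ≥ 4`) has at most two prime divisors `> P`.
So the number of bad primes is at most twice the number of triples `(s, m, r₁)`, at most
`2 * (2 * 16 P Y / Q) * (2 * 3 P / R) * (3 Y)`, i.e. `nbad * (Q R) ≤ 1152 P ^ 2 Y ^ 2`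
(in ℕ: the number of nonzero integers `s` with `|s| Q ≤ 16 P Y` is `2 * (16 P Y / Q)`, and
`(16 P Y / Q) * Q ≤ 16 P Y`).  This is `cntP`.

`cntP_zero`: if `D + d + 3 ≤ NN j` then `16 P Y = 4 ^ (D + d + 2) < 4 ^ NN j ≤ Q`, so `s = 0`, a
contradiction: no bad primes.
-/

namespace BGP

open BG

private theorem PCnt_pr {n p : ℕ} (h : p ∈ Pr n) : p.Prime ∧ 4 ^ n < p ∧ p ≤ 4 * 4 ^ n := by
  rw [Pr, Finset.mem_filter, Finset.mem_Ioc, pow_succ] at h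
  exact ⟨h.2, h.1.1, by omega⟩

private theorem PCnt_cop {q : ℕ → ℕ} (hq : ∀ i, q i ∈ Pr i) {p n : ℕ} (hp : p.Prime)
    (h : 4 ^ n < p) {i : ℕ} (hi : i < n) : p.Coprime (q i) := by
  have a := PCnt_pr (hq i)
  rw [Nat.coprime_primes hp a.1]
  have h1 : 4 ^ (i + 1) ≤ 4 ^ n := Nat.pow_le_pow_right (by norm_num) hi
  rw [pow_succ] at h1
  omega

private theorem PCnt_copQ {q : ℕ → ℕ} (hq : ∀ i, q i ∈ Pr i) {p j : ℕ} (hp : p.Prime)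
    (h : 4 ^ j < p) : p.Coprime (QQ q j) := by
  unfold QQ
  exact Nat.Coprime.prod_right fun i hi => PCnt_cop hq hp h (Finset.mem_range.1 hi)

private theorem PCnt_QR {q : ℕ → ℕ} (hq : ∀ i, q i ∈ Pr i) (j k : ℕ) :
    (QQ q j).Coprime (RR q j k) := by
  unfold QQ RR
  refine Nat.Coprime.prod_left fun i hi => Nat.Coprime.prod_right fun l hl => ?_
  rw [Finset.mem_range] at hi
  rw [Finset.mem_Ico] at hl
  have a := PCnt_pr (hq l)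
  refine (PCnt_cop hq a.1 a.2.1 (show i < l by omega)).symm

private theorem PCnt_Q {q : ℕ → ℕ} (hq : ∀ i, q i ∈ Pr i) (j : ℕ) : 4 ^ NN j ≤ QQ q j := by
  unfold NN QQ
  rw [← Finset.prod_pow_eq_pow_sum]
  exact Finset.prod_le_prod' fun i _ => (PCnt_pr (hq i)).2.1.le

private theorem PCnt_mul (q : ℕ → ℕ) {j k : ℕ} (hjk : j ≤ k) :
    QQ q j * RR q j k = QQ q k := by
  unfold QQ RR
  exact Finset.prod_range_mul_prod_Ico q hjk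

private theorem PCnt_key {P Y Q p₀ p₁ r₀ r₁ : ℕ} (hp₀ : p₀.Prime) (hp₁ : p₁.Prime)
    (hr₀ : r₀.Prime) (a1 : P < p₁) (b0 : Y < r₀) (b0' : r₀ ≤ 4 * Y) (b1 : Y < r₁)
    (b1' : r₁ ≤ 4 * Y) (hne : ¬ (p₀ = p₁ ∧ r₀ = r₁))
    (hQ : (Q : ℤ) ∣ (p₁ : ℤ) * r₁ - p₀ * r₀) (c0 : p₀.Coprime Q) (hYQ : 3 * Y ≤ Q)
    (hYP : 4 * Y ≤ P) : p₀ ≠ p₁ ∧ (p₁ : ℤ) * r₁ - p₀ * r₀ ≠ 0 := by
  have h1 : p₀ ≠ p₁ := by
    rintro rfl
    apply hne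
    refine ⟨rfl, ?_⟩
    have h2 : (Q : ℤ) ∣ (p₀ : ℤ) * (r₁ - r₀) := by rwa [mul_sub]
    have h3 : IsCoprime (Q : ℤ) (p₀ : ℤ) := (Nat.isCoprime_iff_coprime.2 c0).symm
    have h4 := h3.dvd_of_dvd_mul_left h2
    have h5 : (r₁ : ℤ) - r₀ = 0 :=
      Int.eq_zero_of_abs_lt_dvd h4 (abs_lt.2 ⟨by omega, by omega⟩)
    omega
  refine ⟨h1, fun h => ?_⟩
  have h2 : p₁ * r₁ = p₀ * r₀ := by exact_mod_cast sub_eq_zero.1 h
  have h3 : p₁ ∣ p₀ * r₀ := ⟨r₁, h2.symm⟩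
  rcases hp₁.dvd_mul.1 h3 with h4 | h4
  · exact h1 ((Nat.prime_dvd_prime_iff_eq hp₁ hp₀).1 h4).symm
  · have := (Nat.prime_dvd_prime_iff_eq hp₁ hr₀).1 h4
    omega

private theorem PCnt_size {D d j : ℕ} {q : ℕ → ℕ} (hq : ∀ i, q i ∈ Pr i) (hdD : d < D)
    (hd : d + 1 ≤ NN j) : 3 * 4 ^ d ≤ QQ q j ∧ 4 * 4 ^ d ≤ 4 ^ D := by
  have h1 : 4 ^ (d + 1) ≤ 4 ^ NN j := Nat.pow_le_pow_right (by norm_num) hd
  have h2 : 4 ^ (d + 1) ≤ 4 ^ D := Nat.pow_le_pow_right (by norm_num) hdD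
  have h3 := PCnt_Q hq j
  rw [pow_succ] at h1 h2
  constructor <;> omega

private theorem PCnt_bad {D d j k : ℕ} {q : ℕ → ℕ} (hq : ∀ i, q i ∈ Pr i) (hjk : j < k)
    (hk : k ≤ D) (hdD : d < D) (hd : d + 1 ≤ NN j) {p₀ : ℕ}
    (hb : Bad 1 (QQ q j) (RR q j k) (Pr D) (Pr d) p₀) :
    ∃ p₁ r₀ r₁ : ℕ, p₀ ∈ Pr D ∧ p₁ ∈ Pr D ∧ r₀ ∈ Pr d ∧ r₁ ∈ Pr d ∧ p₀ ≠ p₁ ∧
      (QQ q j : ℤ) ∣ (p₁ : ℤ) * r₁ - p₀ * r₀ ∧ (RR q j k : ℤ) ∣ (p₁ : ℤ) - p₀ ∧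
      (p₁ : ℤ) * r₁ - p₀ * r₀ ≠ 0 := by
  obtain ⟨p, r, rfl, hp, hr, hinj, hc⟩ := hb
  obtain ⟨s1, s2⟩ := PCnt_size hq hdD hd
  have hne : ¬ (p 0 = p 1 ∧ r 0 = r 1) := by
    intro h
    have h1 : (0 : Fin 2) = 1 := hinj (Prod.ext h.1 h.2)
    exact absurd h1 (by decide)
  have hQ : (QQ q j : ℤ) ∣ ((p 1 : ℕ) : ℤ) * r 1 - p 0 * r 0 := by
    have := Nat.modEq_iff_dvd.1 (hc 1).2.symm
    push_cast at this
    exact this
  have hR : (RR q j k : ℤ) ∣ ((p 1 : ℕ) : ℤ) - p 0 := Nat.modEq_iff_dvd.1 (hc 1).1.symm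
  have a0 := PCnt_pr (hp 0)
  have a1 := PCnt_pr (hp 1)
  have b0 := PCnt_pr (hr 0)
  have b1 := PCnt_pr (hr 1)
  have c0 : (p 0).Coprime (QQ q j) := by
    refine PCnt_copQ hq a0.1 (lt_of_le_of_lt ?_ a0.2.1)
    exact Nat.pow_le_pow_right (by norm_num) (by omega)
  obtain ⟨k1, k2⟩ := PCnt_key a0.1 a1.1 b0.1 a1.2.1 b0.2.1 b0.2.2 b1.2.1 b1.2.2 hne hQ c0 s1 s2
  exact ⟨p 1, r 0, r 1, hp 0, hp 1, hr 0, hr 1, k1, hQ, hR, k2⟩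

private theorem PCnt_bx {s : ℤ} {Q X : ℕ} (hQ : 0 < Q) (hs : s ≠ 0)
    (h : |s * Q| ≤ (X : ℤ)) : s ∈ Bx (X / Q) := by
  have h1 : s.natAbs * Q ≤ X := by
    rw [abs_mul, Nat.abs_cast] at h
    have h2 : ((s.natAbs * Q : ℕ) : ℤ) ≤ (X : ℤ) := by
      push_cast
      exact h
    exact_mod_cast h2
  have h2 : s.natAbs ≤ X / Q := (Nat.le_div_iff_mul_le hQ).2 h1
  unfold Bx
  rw [Finset.mem_filter, Finset.mem_Icc]
  refine ⟨?_, hs⟩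
  omega

private theorem PCnt_cardBx (H : ℕ) : (Bx H).card ≤ 2 * H := by
  have h1 : Bx H = (Finset.Icc (-(H : ℤ)) H).erase 0 := by
    ext x
    unfold Bx
    rw [Finset.mem_filter, Finset.mem_erase, and_comm]
  rw [h1, Finset.card_erase_of_mem (by rw [Finset.mem_Icc]; omega), Int.card_Icc]
  omega

private theorem PCnt_cardPr (n : ℕ) : (Pr n).card ≤ 3 * 4 ^ n := by
  unfold Pr
  refine (Finset.card_filter_le _ _).trans ?_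
  rw [Nat.card_Ioc, pow_succ]
  omega

/-- a nonzero integer of absolute value at most `3 P ^ 2` has at most two prime divisors `> P` -/
private theorem PCnt_two {P : ℕ} (hP : 3 ≤ P) {N : ℤ} (hN : N ≠ 0) (hN2 : |N| ≤ 3 * (P : ℤ) ^ 2)
    (T : Finset ℕ) (hT : ∀ p ∈ T, p.Prime ∧ P < p ∧ (p : ℤ) ∣ N) : T.card ≤ 2 := by
  by_contra hcon
  rw [not_le] at hcon
  obtain ⟨a, ha, b, hb, c, hc, hab, hac, hbc⟩ := Finset.two_lt_card.1 hcon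
  obtain ⟨a1, a2, a3⟩ := hT a ha
  obtain ⟨b1, b2, b3⟩ := hT b hb
  obtain ⟨c1, c2, c3⟩ := hT c hc
  have ha3 := Int.natCast_dvd.1 a3
  have hb3 := Int.natCast_dvd.1 b3
  have hc3 := Int.natCast_dvd.1 c3
  have cab : a.Coprime b := (Nat.coprime_primes a1 b1).2 hab
  have cac : a.Coprime c := (Nat.coprime_primes a1 c1).2 hac
  have cbc : b.Coprime c := (Nat.coprime_primes b1 c1).2 hbc
  have h1 : a * b ∣ N.natAbs := cab.mul_dvd_of_dvd_of_dvd ha3 hb3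
  have h2 : a * b * c ∣ N.natAbs := (Nat.Coprime.mul_left cac cbc).mul_dvd_of_dvd_of_dvd h1 hc3
  have h3 : a * b * c ≤ N.natAbs := Nat.le_of_dvd (Int.natAbs_pos.2 hN) h2
  have h4 : N.natAbs ≤ 3 * P ^ 2 := by
    have : ((N.natAbs : ℕ) : ℤ) ≤ ((3 * P ^ 2 : ℕ) : ℤ) := by
      push_cast
      exact hN2
    exact_mod_cast this
  have h5 : P * P * P < a * b * c :=
    Nat.mul_lt_mul'' (Nat.mul_lt_mul'' a2 b2) c2
  have h6 : 3 * P ^ 2 ≤ P * P * P := by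
    rw [pow_two, mul_comm 3 (P * P)]
    exact Nat.mul_le_mul_left _ hP
  omega

theorem cntP (D d j k : ℕ) (q : ℕ → ℕ) (hq : ∀ i, q i ∈ Pr i) (hjk : j < k) (hk : k ≤ D)
    (hj : j ≤ d) (hdD : d < D) (hd : d + 1 ≤ NN j) (hD : 2 * D + 2 ≤ NN k) :
    nbad 1 D d j k q * 4 ^ NN k ≤ 1152 * 4 ^ (2 * D + 2 * d) := by
  classical
  obtain ⟨s1, s2⟩ := PCnt_size hq hdD hd
  obtain ⟨Q, hQd⟩ : ∃ Q, Q = QQ q j := ⟨_, rfl⟩
  obtain ⟨R, hRd⟩ : ∃ R, R = RR q j k := ⟨_, rfl⟩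
  obtain ⟨P, hPd⟩ : ∃ P, P = 4 ^ D := ⟨_, rfl⟩
  obtain ⟨Y, hYd⟩ : ∃ Y, Y = 4 ^ d := ⟨_, rfl⟩
  have hQR : 4 ^ NN k ≤ Q * R := by
    rw [hQd, hRd, PCnt_mul q hjk.le]
    exact PCnt_Q hq k
  have hcop : Q.Coprime R := by
    rw [hQd, hRd]
    exact PCnt_QR hq j k
  have hQR0 : 0 < Q * R := lt_of_lt_of_le (by positivity) hQR
  have hQ0 : 0 < Q := Nat.pos_of_mul_pos_right hQR0
  have hR0 : 0 < R := Nat.pos_of_mul_pos_left hQR0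
  have hY0 : 0 < Y := by rw [hYd]; positivity
  have hYP : 4 * Y ≤ P := by rw [hYd, hPd]; exact s2
  have hP3 : 3 ≤ P := by omega
  have hPQR : 3 * P < Q * R := by
    have h1 : 4 ^ (2 * D + 2) ≤ 4 ^ NN k := Nat.pow_le_pow_right (by norm_num) hD
    have h2 : 4 ^ (2 * D + 2) = P * P * 16 := by
      rw [hPd]
      ring
    have h3 : P * 1 ≤ P * P := Nat.mul_le_mul_left _ (by omega)
    omega
  obtain ⟨F, hF⟩ : ∃ F : ℤ × (ℤ × ℕ) → ℤ,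
      F = fun t : ℤ × (ℤ × ℕ) => t.1 * Q - t.2.1 * R * t.2.2 := ⟨_, rfl⟩
  obtain ⟨G, hG⟩ : ∃ G : ℤ × (ℤ × ℕ) → Finset ℕ, G = fun t => (Pr D).filter fun p : ℕ =>
    (p : ℤ) ∣ F t ∧ F t ≠ 0 ∧ |F t| ≤ 3 * (P : ℤ) ^ 2 := ⟨_, rfl⟩
  have hsub : (Pr D).filter (fun p => Bad 1 (QQ q j) (RR q j k) (Pr D) (Pr d) p) ⊆
      (Bx (16 * (P * Y) / Q) ×ˢ (Bx (3 * P / R) ×ˢ Pr d)).biUnion G := by
    intro p₀ hp₀
    rw [Finset.mem_filter] at hp₀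
    obtain ⟨p₁, r₀, r₁, m1, m2, m3, m4, hne, hdQ, hdR, hn0⟩ :=
      PCnt_bad hq hjk hk hdD hd hp₀.2
    rw [← hQd] at hdQ
    rw [← hRd] at hdR
    have a0 := PCnt_pr m1
    have a1 := PCnt_pr m2
    have b0 := PCnt_pr m3
    have b1 := PCnt_pr m4
    rw [← hPd] at a0 a1
    rw [← hYd] at b0 b1
    obtain ⟨s, hs⟩ := hdQ
    obtain ⟨m, hm⟩ := hdR
    have u0 : p₀ * r₀ ≤ 4 * P * (4 * Y) := Nat.mul_le_mul a0.2.2 b0.2.2
    have u1 : p₁ * r₁ ≤ 4 * P * (4 * Y) := Nat.mul_le_mul a1.2.2 b1.2.2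
    have e16 : 4 * P * (4 * Y) = 16 * (P * Y) := by ring
    rw [e16] at u0 u1
    have u0' : (p₀ : ℤ) * r₀ ≤ 16 * (P * Y) := by exact_mod_cast u0
    have u1' : (p₁ : ℤ) * r₁ ≤ 16 * (P * Y) := by exact_mod_cast u1
    have z0 : (0 : ℤ) ≤ (p₀ : ℤ) * r₀ := by positivity
    have z1 : (0 : ℤ) ≤ (p₁ : ℤ) * r₁ := by positivity
    have hs0 : s ≠ 0 := by
      rintro rfl
      rw [mul_zero] at hs
      exact hn0 hs
    have hm0 : m ≠ 0 := by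
      rintro rfl
      rw [mul_zero] at hm
      apply hne
      omega
    have hsb : s ∈ Bx (16 * (P * Y) / Q) := by
      refine PCnt_bx hQ0 hs0 ?_
      rw [mul_comm, ← hs, abs_le]
      push_cast
      constructor <;> linarith
    have hmb : m ∈ Bx (3 * P / R) := by
      refine PCnt_bx hR0 hm0 ?_
      rw [mul_comm, ← hm, abs_le]
      push_cast
      constructor <;> omega
    -- the number
    have hN : F (s, m, r₁) = p₀ * ((r₁ : ℤ) - r₀) := by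
      rw [hF]
      show s * (Q : ℤ) - m * R * r₁ = p₀ * ((r₁ : ℤ) - r₀)
      linear_combination (r₁ : ℤ) * hm - hs
    have hr : (r₁ : ℤ) - r₀ ≠ 0 := by
      intro h
      have hrr : r₁ = r₀ := by omega
      have h1 : (Q : ℤ) ∣ ((p₁ : ℤ) - p₀) * r₀ := by
        refine ⟨s, ?_⟩
        rw [← hs, hrr]
        ring
      have c1 : r₀.Coprime Q := by
        rw [hQd]
        refine PCnt_copQ hq b0.1 (lt_of_le_of_lt ?_ b0.2.1)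
        rw [hYd]
        exact Nat.pow_le_pow_right (by norm_num) hj
      have h2 : IsCoprime (Q : ℤ) (r₀ : ℤ) := (Nat.isCoprime_iff_coprime.2 c1).symm
      have h3 := h2.dvd_of_dvd_mul_right h1
      have h4 : (R : ℤ) ∣ (p₁ : ℤ) - p₀ := ⟨m, hm⟩
      have h5 : IsCoprime (Q : ℤ) (R : ℤ) := Nat.isCoprime_iff_coprime.2 hcop
      have h6 := h5.mul_dvd h3 h4
      have h7 : (p₁ : ℤ) - p₀ = 0 := by
        refine Int.eq_zero_of_abs_lt_dvd h6 ?_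
        have h8 : (3 * P : ℤ) < (Q : ℤ) * R := by exact_mod_cast hPQR
        rw [abs_lt]
        constructor <;> linarith [a0.2.1, a0.2.2, a1.2.1, a1.2.2,
          (by exact_mod_cast a0.2.1 : (P : ℤ) < p₀), (by exact_mod_cast a0.2.2 : (p₀ : ℤ) ≤ 4 * P),
          (by exact_mod_cast a1.2.1 : (P : ℤ) < p₁), (by exact_mod_cast a1.2.2 : (p₁ : ℤ) ≤ 4 * P)]
      apply hne
      omega
    rw [Finset.mem_biUnion]
    refine ⟨(s, m, r₁), ?_, ?_⟩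
    · rw [Finset.mem_product, Finset.mem_product]
      exact ⟨hsb, hmb, m4⟩
    · rw [hG]
      simp only [Finset.mem_filter]
      rw [hN]
      refine ⟨m1, Dvd.intro _ rfl, mul_ne_zero ?_ hr, ?_⟩
      · have := a0.1.pos
        omega
      · rw [abs_mul, Nat.abs_cast]
        have v1 : |(r₁ : ℤ) - r₀| ≤ 3 * Y := by
          rw [abs_le]
          constructor <;> omega
        have v2 : (p₀ : ℤ) ≤ 4 * P := by exact_mod_cast a0.2.2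
        have v3 : (4 * Y : ℤ) ≤ P := by exact_mod_cast hYP
        calc (p₀ : ℤ) * |(r₁ : ℤ) - r₀| ≤ (4 * P) * (3 * Y) :=
              mul_le_mul v2 v1 (abs_nonneg _) (by positivity)
          _ = 3 * P * (4 * Y) := by ring
          _ ≤ 3 * P * P := mul_le_mul_of_nonneg_left v3 (by positivity)
          _ = 3 * (P : ℤ) ^ 2 := by ring
  have hcard : nbad 1 D d j k q ≤
      (2 * (16 * (P * Y) / Q) * (2 * (3 * P / R) * (3 * Y))) * 2 := by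
    have h1 : nbad 1 D d j k q =
        ((Pr D).filter (fun p => Bad 1 (QQ q j) (RR q j k) (Pr D) (Pr d) p)).card := by
      unfold nbad
      congr
    rw [h1]
    refine (Finset.card_le_card hsub).trans ?_
    refine (Finset.card_biUnion_le_card_mul _ _ 2 ?_).trans ?_
    · intro t _
      rw [hG]
      by_cases hz : F t ≠ 0 ∧ |F t| ≤ 3 * (P : ℤ) ^ 2
      · refine PCnt_two hP3 hz.1 hz.2 _ fun p hp => ?_
        simp only [Finset.mem_filter] at hp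
        have := PCnt_pr hp.1
        rw [← hPd] at this
        exact ⟨this.1, this.2.1, hp.2.1⟩
      · have h2 : (Pr D).filter (fun p : ℕ => (p : ℤ) ∣ F t ∧ F t ≠ 0 ∧
            |F t| ≤ 3 * (P : ℤ) ^ 2) = ∅ := by
          rw [Finset.filter_eq_empty_iff]
          intro p _ h
          exact hz h.2
        simp only
        rw [h2]
        simp
    · rw [Finset.card_product, Finset.card_product]
      refine Nat.mul_le_mul_right 2 (Nat.mul_le_mul (PCnt_cardBx _)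
        (Nat.mul_le_mul (PCnt_cardBx _) ?_))
      rw [hYd]
      exact PCnt_cardPr d
  have e1 : 16 * (P * Y) / Q * Q ≤ 16 * (P * Y) := Nat.div_mul_le_self _ _
  have e2 : 3 * P / R * R ≤ 3 * P := Nat.div_mul_le_self _ _
  obtain ⟨H₁, hH1⟩ : ∃ H, H = 16 * (P * Y) / Q := ⟨_, rfl⟩
  obtain ⟨H₂, hH2⟩ : ∃ H, H = 3 * P / R := ⟨_, rfl⟩
  rw [← hH1] at e1 hcard
  rw [← hH2] at e2 hcard
  calc nbad 1 D d j k q * 4 ^ NN k ≤ ((2 * H₁ * (2 * H₂ * (3 * Y))) * 2) * (Q * R) :=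
        Nat.mul_le_mul hcard hQR
    _ = 24 * ((H₁ * Q) * (H₂ * R) * Y) := by ring
    _ ≤ 24 * ((16 * (P * Y)) * (3 * P) * Y) :=
        Nat.mul_le_mul_left _ (Nat.mul_le_mul_right _ (Nat.mul_le_mul e1 e2))
    _ = 1152 * (P ^ 2 * Y ^ 2) := by ring
    _ = 1152 * 4 ^ (2 * D + 2 * d) := by
        rw [hPd, hYd, pow_add, ← pow_mul, ← pow_mul, mul_comm D 2, mul_comm d 2]

theorem cntP_zero (D d j k : ℕ) (q : ℕ → ℕ) (hq : ∀ i, q i ∈ Pr i) (hjk : j < k) (hk : k ≤ D)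
    (hj : j ≤ d) (hdD : d < D) (hd : d + 1 ≤ NN j) (h : D + d + 3 ≤ NN j) :
    nbad 1 D d j k q = 0 := by
  classical
  unfold nbad
  rw [Finset.card_eq_zero, Finset.filter_eq_empty_iff]
  intro p₀ _ hb
  obtain ⟨p₁, r₀, r₁, m1, m2, m3, m4, _, hdQ, _, hn0⟩ := PCnt_bad hq hjk hk hdD hd hb
  apply hn0
  have a0 := PCnt_pr m1
  have a1 := PCnt_pr m2
  have b0 := PCnt_pr m3
  have b1 := PCnt_pr m4
  have u0 : p₀ * r₀ ≤ 4 * 4 ^ D * (4 * 4 ^ d) := Nat.mul_le_mul a0.2.2 b0.2.2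
  have u1 : p₁ * r₁ ≤ 4 * 4 ^ D * (4 * 4 ^ d) := Nat.mul_le_mul a1.2.2 b1.2.2
  have e16 : 4 * 4 ^ D * (4 * 4 ^ d) = 4 ^ (D + d + 2) := by
    rw [pow_add, pow_add]
    ring
  rw [e16] at u0 u1
  have h1 : 4 ^ (D + d + 3) ≤ 4 ^ NN j := Nat.pow_le_pow_right (by norm_num) h
  have h2 := PCnt_Q hq j
  have h3 : 4 ^ (D + d + 3) = 4 * 4 ^ (D + d + 2) := by
    rw [pow_succ, mul_comm]
  have h4 : 0 < 4 ^ (D + d + 2) := by positivity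
  have u0' : (p₀ : ℤ) * r₀ ≤ (4 ^ (D + d + 2) : ℕ) := by exact_mod_cast u0
  have u1' : (p₁ : ℤ) * r₁ ≤ (4 ^ (D + d + 2) : ℕ) := by exact_mod_cast u1
  have z0 : (0 : ℤ) ≤ (p₀ : ℤ) * r₀ := by positivity
  have z1 : (0 : ℤ) ≤ (p₁ : ℤ) * r₁ := by positivity
  refine Int.eq_zero_of_abs_lt_dvd hdQ ?_
  have h5 : ((4 ^ (D + d + 2) : ℕ) : ℤ) < (QQ q j : ℤ) := by
    have : 4 ^ (D + d + 2) < QQ q j := by omega
    exact_mod_cast this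
  rw [abs_lt]
  constructor <;> linarith

end BGP
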