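import Pool.Agent.Lib.MP_be7f9f_nt_P.Defs
import Pool.Agent.Lib.MP_be7f9f_nt.Dig
import Pool.Agent.Lib.MP_be7f9f_nt.ToMod

/-!
# The number of elements of block `k`

Proof of `growP`: exactly the proof of `BG.grow1` (Pool/Agent/Lib/MP_be7f9f_nt/Grow.lean) with
`g = 1` and `DD c k` replaced by `D k`, the hypothesis `hE` being used directly (copy).
`inf_of_grow`: `card (Pr (D k)) ≥ 4 ^ (D k) / (C (D k + 1))` with `D k ≥ k` is unbounded, so `A` has
arbitrarily many elements.
-/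

namespace BGP

open BG

private theorem grow_RR_ext (q : ℕ → ℕ) (k j : ℕ) :
    RR (ext fun i : Fin k => q i) j k = RR q j k := by
  unfold RR
  refine Finset.prod_congr rfl fun i hi => ?_
  rw [Finset.mem_Ico] at hi
  exact ext_restrict q k i hi.2

theorem growP (D : ℕ → ℕ) (k₀ : ℕ) (q : ℕ → ℕ) (hq : ∀ i, q i ∈ Pr i) (lg : ℕ → ℕ → ℕ)
    (hlg : IsLog lg) (k : ℕ) (hk : k₀ ≤ k) (h1 : k ≤ D k) (h2 : 2 * D k + 2 ≤ NN k)
    (hE : 2 * ∑ j ∈ Finset.Ico k₀ k, nbad 1 (D k) (D j) j k q ≤ (Pr (D k)).card) :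
    ((Pr (D k)).card + 1) / 2 ≤ (AP D k₀ q lg ∩ Set.Iic (4 ^ TT k)).ncard := by
  classical
  set E := D k with hEd
  have hqp : ∀ i, (q i).Prime ∧ 4 ^ i < q i ∧ q i ≤ 4 ^ (i + 1) := by
    intro i
    have := hq i
    rw [Pr, Finset.mem_filter, Finset.mem_Ioc] at this
    exact ⟨this.2, this.1.1, this.1.2⟩
  have hkD : k ≤ E := h1
  have hDN : 2 * E + 2 ≤ NN k := h2
  -- the good primes
  let B : ℕ → Finset ℕ := fun j =>
    (Pr E).filter fun p => Bad 1 (QQ q j) (RR q j k) (Pr E) (Pr (D j)) p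
  let G : Finset ℕ := (Pr E).filter fun p => ∀ j ∈ Finset.Ico k₀ k,
    ¬ Bad 1 (QQ q j) (RR q j k) (Pr E) (Pr (D j)) p
  have hB : ∀ j ∈ Finset.Ico k₀ k,
      nbad 1 E (D j) j k q = (B j).card := by
    intro j hj
    rw [Finset.mem_Ico] at hj
    rfl
  have hsum : 2 * ∑ j ∈ Finset.Ico k₀ k, (B j).card ≤ (Pr E).card := by
    have h := hE
    rw [Finset.sum_congr rfl hB] at h
    exact h
  have hcov : (Pr E) ⊆ G ∪ (Finset.Ico k₀ k).biUnion B := by
    intro p hp
    by_cases hg : ∀ j ∈ Finset.Ico k₀ k,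
        ¬ Bad 1 (QQ q j) (RR q j k) (Pr E) (Pr (D j)) p
    · exact Finset.mem_union_left _ (Finset.mem_filter.2 ⟨hp, hg⟩)
    · push Not at hg
      obtain ⟨j, hj, hb⟩ := hg
      exact Finset.mem_union_right _ (Finset.mem_biUnion.2 ⟨j, hj, Finset.mem_filter.2 ⟨hp, hb⟩⟩)
  have hG : ((Pr E).card + 1) / 2 ≤ G.card := by
    have a1 : (Pr E).card ≤ G.card + ((Finset.Ico k₀ k).biUnion B).card :=
      le_trans (Finset.card_le_card hcov) (Finset.card_union_le _ _)
    have a2 : ((Finset.Ico k₀ k).biUnion B).card ≤ ∑ j ∈ Finset.Ico k₀ k, (B j).card :=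
      Finset.card_biUnion_le
    omega
  -- injectivity
  have hinj : Set.InjOn (fun p => el q lg k p) (G : Set ℕ) := by
    intro p hp p' hp' he
    have hpm : p ∈ Pr E := (Finset.mem_filter.1 (Finset.mem_coe.1 hp)).1
    have hpm' : p' ∈ Pr E := (Finset.mem_filter.1 (Finset.mem_coe.1 hp')).1
    rw [Pr, Finset.mem_filter, Finset.mem_Ioc] at hpm hpm'
    have hdig := val_inj q (fun i => q i + lg (q i) p) (fun i => q i + lg (q i) p') k
      (fun i _ => by have := (hlg (q i) (hqp i).1).1 p; omega)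
      (fun i _ => by have := (hlg (q i) (hqp i).1).1 p'; omega) he
    have hcop : ∀ p : ℕ, p.Prime → 4 ^ E < p → ∀ i < k, p.Coprime (q i) := by
      intro p hpp hpl i hi
      rw [Nat.coprime_primes hpp (hqp i).1]
      have : q i ≤ 4 ^ E := le_trans (hqp i).2.2 (Nat.pow_le_pow_right (by norm_num) (by omega))
      omega
    have hm := (to_mod q hq lg hlg (j := 0) (k := k) (p := p) (r := 1) (p' := p') (r' := 1)
      (Nat.zero_le _) (hcop p hpm.2 hpm.1.1) (hcop p' hpm'.2 hpm'.1.1)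
      (fun i hi => absurd hi (by omega)) (fun i hi => absurd hi (by omega))
      (fun i hi => absurd hi (by omega))
      (fun i _ hi => by have := hdig i hi; omega)).2
    have hR : 4 ^ NN k ≤ RR q 0 k := by
      have hf : (fun i : Fin k => q i) ∈ Om k := by
        unfold Om
        rw [Fintype.mem_piFinset]
        intro i
        exact hq i
      have := (RR_bounds (Nat.zero_le k) hf).1
      rw [grow_RR_ext q k 0] at this
      have h0 : NN 0 = 0 := by simp [NN]
      rw [h0, Nat.sub_zero] at this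
      exact this
    have hlt : 4 ^ (E + 1) < 4 ^ NN k := Nat.pow_lt_pow_right (by norm_num) (by omega)
    exact hm.eq_of_lt_of_lt (by omega) (by omega)
  -- conclusion
  have hsub : ((G.image fun p => el q lg k p : Finset ℕ) : Set ℕ) ⊆
      AP D k₀ q lg ∩ Set.Iic (4 ^ TT k) := by
    intro a ha
    rw [Finset.mem_coe, Finset.mem_image] at ha
    obtain ⟨p, hp, rfl⟩ := ha
    rw [Finset.mem_filter] at hp
    refine ⟨⟨k, hk, p, hp.1, hp.2, rfl⟩, ?_⟩
    rw [Set.mem_Iic]
    have hv : el q lg k p < ∏ l ∈ Finset.range k, (4 * q l) := by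
      refine val_lt q _ k fun i _ => ?_
      have := (hlg (q i) (hqp i).1).1 p
      omega
    refine le_trans hv.le ?_
    calc ∏ l ∈ Finset.range k, (4 * q l) ≤ ∏ l ∈ Finset.range k, 4 ^ (l + 2) := by
          refine Finset.prod_le_prod' fun l _ => ?_
          have := (hqp l).2.2
          rw [pow_succ 4 (l + 1)]
          omega
      _ = 4 ^ TT k := by
          rw [Finset.prod_pow_eq_pow_sum, Finset.sum_add_distrib]
          congr 1
          unfold TT NN
          rw [Finset.sum_const, Finset.card_range, smul_eq_mul]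
          ring
  calc ((Pr E).card + 1) / 2 ≤ G.card := hG
    _ = (G.image fun p => el q lg k p).card := (Finset.card_image_of_injOn hinj).symm
    _ = ((G.image fun p => el q lg k p : Finset ℕ) : Set ℕ).ncard :=
        (Set.ncard_coe_finset _).symm
    _ ≤ _ := Set.ncard_le_ncard hsub ((Set.finite_Iic _).subset Set.inter_subset_right)


theorem inf_of_grow (A : Set ℕ) (D : ℕ → ℕ) (k₀ C : ℕ) (hC : ∀ n : ℕ, 4 ^ n ≤ C * (n + 1) *
    (Pr n).card) (h1 : ∀ k, k₀ ≤ k → k ≤ D k)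
    (h : ∀ k, k₀ ≤ k → ((Pr (D k)).card + 1) / 2 ≤ (A ∩ Set.Iic (4 ^ TT k)).ncard) :
    A.Infinite := by
  by_contra hfin
  rw [Set.not_infinite] at hfin
  set M : ℕ := 2 * A.ncard * C with hM
  set k : ℕ := max k₀ M with hk
  have hk0 : k₀ ≤ k := le_max_left _ _
  have hDk : M ≤ D k := (le_max_right _ _).trans (h1 k hk0)
  have h2 : (A ∩ Set.Iic (4 ^ TT k)).ncard ≤ A.ncard :=
    Set.ncard_le_ncard Set.inter_subset_left hfin
  have h3 := h k hk0
  have h4 : (Pr (D k)).card ≤ 2 * A.ncard := by omega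
  have h5 : D k + 1 ≤ 2 ^ D k := Nat.lt_two_pow_self
  have h6 : (D k + 1) * (M + 1) ≤ 4 ^ D k := by
    calc (D k + 1) * (M + 1) ≤ 2 ^ D k * 2 ^ D k := Nat.mul_le_mul h5 (by omega)
      _ = 4 ^ D k := by rw [← mul_pow]; norm_num
  have h7 : 4 ^ D k ≤ (D k + 1) * M := by
    calc 4 ^ D k ≤ C * (D k + 1) * (Pr (D k)).card := hC _
      _ ≤ C * (D k + 1) * (2 * A.ncard) := Nat.mul_le_mul_left _ h4
      _ = (D k + 1) * M := by rw [hM]; ring
  have h8 : (D k + 1) * (M + 1) = (D k + 1) * M + (D k + 1) := by ring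
  omega

end BGP
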