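import Pool.Agent.Lib.MP_be7f9f_nt_P.PB
import Pool.Agent.Lib.MP_be7f9f_nt_P.PCnt
import Pool.Agent.Lib.MP_be7f9f_nt_P.PGrow
import Pool.Agent.Lib.MP_be7f9f_nt_P.PAsy
import Pool.Agent.Lib.MP_be7f9f_nt.Prm
import Pool.Agent.Lib.MP_be7f9f_nt.DLog

/-!
# Assembly
-/

namespace BGP

open BG

variable {u : ℝ → ℝ} {δ : ℝ}

/-- At most half of the primes of block `k` are bad. -/
theorem half_good (D : ℕ → ℕ) (k₀ C : ℕ) (hC0 : 0 < C) (hC : ∀ n : ℕ, 4 ^ n ≤ C * (n + 1) * (Pr n).card)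
    (q : ℕ → ℕ) (hq : ∀ i, q i ∈ Pr i) (h1 : ∀ k, k₀ ≤ k → k ≤ D k ∧ 2 * D k + 2 ≤ NN k ∧
      ∀ j, k₀ ≤ j → j < k → D j < D k)
    (h2 : ∀ j k : ℕ, k₀ ≤ j → j < k → D k + D j + 3 ≤ NN j ∨
      2304 * k * C * (D k + 1) * 4 ^ (D k + 2 * D j) ≤ 4 ^ NN k) (k : ℕ) (hk : k₀ ≤ k) :
    2 * ∑ j ∈ Finset.Ico k₀ k, nbad 1 (D k) (D j) j k q ≤ (Pr (D k)).card := by
  have key : ∀ j ∈ Finset.Ico k₀ k, (2 * k) * nbad 1 (D k) (D j) j k q ≤ (Pr (D k)).card := by
    intro j hj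
    rw [Finset.mem_Ico] at hj
    obtain ⟨a1, a2, a3⟩ := h1 k hk
    obtain ⟨b1, b2, b3⟩ := h1 j hj.1
    rcases h2 j k hj.1 hj.2 with h | h
    · rw [cntP_zero (D k) (D j) j k q hq hj.2 a1 b1 (a3 j hj.1 hj.2) (by omega) h]
      simp
    · have hc := cntP (D k) (D j) j k q hq hj.2 a1 b1 (a3 j hj.1 hj.2) (by omega) a2
      set n := nbad 1 (D k) (D j) j k q
      have hCk := hC (D k)
      have e1 : n * (2304 * k * C * (D k + 1) * 4 ^ (D k + 2 * D j)) ≤
          1152 * 4 ^ (2 * D k + 2 * D j) := le_trans (Nat.mul_le_mul_left _ h) hc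
      have e2 : 4 ^ (2 * D k + 2 * D j) = 4 ^ (D k) * 4 ^ (D k + 2 * D j) := by
        rw [← pow_add]; congr 1; ring
      rw [e2] at e1
      have hp : 0 < 1152 * 4 ^ (D k + 2 * D j) := by positivity
      have e3 : (1152 * 4 ^ (D k + 2 * D j)) * (2 * k * n * (C * (D k + 1))) ≤
          (1152 * 4 ^ (D k + 2 * D j)) * 4 ^ (D k) := by
        calc _ = n * (2304 * k * C * (D k + 1) * 4 ^ (D k + 2 * D j)) := by ring
          _ ≤ _ := e1
          _ = _ := by ring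
      have e4 : 2 * k * n * (C * (D k + 1)) ≤ 4 ^ (D k) := Nat.le_of_mul_le_mul_left e3 hp
      have e5 : (C * (D k + 1)) * (2 * k * n) ≤ (C * (D k + 1)) * (Pr (D k)).card := by
        calc _ = 2 * k * n * (C * (D k + 1)) := by ring
          _ ≤ _ := e4
          _ ≤ _ := hCk
      exact Nat.le_of_mul_le_mul_left e5 (by positivity)
  rcases Nat.eq_zero_or_pos k with h0 | h0
  · subst h0
    simp
  · have h3 : k * (2 * ∑ j ∈ Finset.Ico k₀ k, nbad 1 (D k) (D j) j k q) ≤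
        k * (Pr (D k)).card := by
      calc k * (2 * ∑ j ∈ Finset.Ico k₀ k, nbad 1 (D k) (D j) j k q)
          = ∑ j ∈ Finset.Ico k₀ k, (2 * k) * nbad 1 (D k) (D j) j k q := by
            rw [← Finset.mul_sum]; ring
        _ ≤ ∑ j ∈ Finset.Ico k₀ k, (Pr (D k)).card := Finset.sum_le_sum key
        _ = (k - k₀) * (Pr (D k)).card := by
            rw [Finset.sum_const, Nat.card_Ico, smul_eq_mul]
        _ ≤ k * (Pr (D k)).card := Nat.mul_le_mul_right _ (Nat.sub_le _ _)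
    exact Nat.le_of_mul_le_mul_left h3 h0

theorem main_aux (hu : Prof u δ) :
    ∃ A : Set ℕ, A.Infinite ∧ 0 ∉ A ∧
      (∀ a ∈ A, ∀ b ∈ A, ∀ c ∈ A, ∀ d ∈ A, a + b = c + d → (a = c ∧ b = d) ∨ (a = d ∧ b = c)) ∧
      ∃ n₀ : ℕ, ∀ n : ℕ, n₀ ≤ n → Real.exp (u (Real.log n)) ≤ (A ∩ Set.Iic n).ncard := by
  obtain ⟨C, hC0, hC⟩ := prm
  obtain ⟨k₁, hk₁, hreg⟩ := regP hu
  obtain ⟨k₂, hasy⟩ := asyP hu C
  obtain ⟨k₃, hgr⟩ := growV hu C
  obtain ⟨lg, hlg⟩ := exists_log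
  have hne : ∀ i, (Pr i).Nonempty := by
    intro i
    rw [Finset.nonempty_iff_ne_empty]
    intro h
    have := hC i
    rw [h] at this
    simp at this
  choose q hq using hne
  set k₀ := max k₁ (max k₂ k₃) with hk₀
  have e1 : k₁ ≤ k₀ := le_max_left _ _
  have e2 : k₂ ≤ k₀ := le_trans (le_max_left _ _) (le_max_right _ _)
  have e3 : k₃ ≤ k₀ := le_trans (le_max_right _ _) (le_max_right _ _)
  have g1 : ∀ k, k₀ ≤ k → k ≤ DP u δ k ∧ 2 * DP u δ k + 2 ≤ NN k ∧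
      ∀ j, k₀ ≤ j → j < k → DP u δ j < DP u δ k := fun k hk =>
    ⟨(hreg k (by omega)).1, (hreg k (by omega)).2.1,
      fun j hj hjk => (hreg k (by omega)).2.2 j (by omega) hjk⟩
  have g2 : ∀ k, k₀ ≤ k → 2 * ∑ j ∈ Finset.Ico k₀ k, nbad 1 (DP u δ k) (DP u δ j) j k q ≤
      (Pr (DP u δ k)).card := fun k hk =>
    half_good (DP u δ) k₀ C hC0 hC q hq g1 (fun j k hj hjk => hasy j k (by omega) hjk) k hk
  have g3 : ∀ k, k₀ ≤ k → ((Pr (DP u δ k)).card + 1) / 2 ≤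
      (AP (DP u δ) k₀ q lg ∩ Set.Iic (4 ^ TT k)).ncard := fun k hk =>
    growP (DP u δ) k₀ q hq lg hlg k hk (g1 k hk).1 (g1 k hk).2.1 (g2 k hk)
  have hB := b2P (DP u δ) k₀ q hq lg hlg (fun k hk => (g1 k hk).1) (fun k hk => (g1 k hk).2.1)
  refine ⟨AP (DP u δ) k₀ q lg, ?_, ?_, ?_, 4 ^ TT k₀, ?_⟩
  · exact inf_of_grow _ (DP u δ) k₀ C hC (fun k hk => (g1 k hk).1) g3
  · exact zero_notMemP (DP u δ) k₀ (by omega) q hq lg
  · intro a ha b hb c hc d hd h
    exact sidon_of_isB hB ha hb hc hd h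
  · intro n hn
    -- the block serving `n`
    have hex : ∃ k, k₀ ≤ k ∧ n < 4 ^ TT (k + 1) := by
      refine ⟨max k₀ n, le_max_left _ _, ?_⟩
      have h1 : n < 4 ^ n := Nat.lt_pow_self (by norm_num)
      have h2 : n ≤ TT (max k₀ n + 1) := by
        have : max k₀ n + 2 ≤ TT (max k₀ n + 1) := by rw [TT_succ]; omega
        have h3 : n ≤ max k₀ n := le_max_right _ _
        omega
      exact lt_of_lt_of_le h1 (Nat.pow_le_pow_right (by norm_num) h2)
    classical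
    have h1 := Nat.find_spec hex
    have h2 : ∀ k, k < Nat.find hex → ¬ (k₀ ≤ k ∧ n < 4 ^ TT (k + 1)) :=
      fun k hk => Nat.find_min hex hk
    generalize Nat.find hex = k at h1 h2
    obtain ⟨hk, hlt⟩ := h1
    have hge : 4 ^ TT k ≤ n := by
      rcases hk.eq_or_lt with h | h
      · rw [← h]; exact hn
      · obtain ⟨k', rfl⟩ : ∃ k', k = k' + 1 := ⟨k - 1, by omega⟩
        have := h2 k' (Nat.lt_succ_self k')
        push Not at this
        exact this (by omega)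
    have hL : 0 < Real.log 4 := Real.log_pos (by norm_num)
    have hnpos : (0 : ℝ) < n := by
      have : 0 < n := lt_of_lt_of_le (by positivity) hge
      exact_mod_cast this
    have t1 : Real.log 4 * TT k ≤ Real.log n := by
      have h3 : Real.log (((4 : ℝ)) ^ (TT k)) ≤ Real.log n := by
        refine Real.log_le_log (by positivity) ?_
        exact_mod_cast hge
      rw [Real.log_pow] at h3
      linarith
    have t2 : Real.log n ≤ Real.log 4 * TT (k + 1) := by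
      have h3 : Real.log n ≤ Real.log (((4 : ℝ)) ^ (TT (k + 1))) := by
        refine Real.log_le_log hnpos ?_
        exact_mod_cast hlt.le
      rw [Real.log_pow] at h3
      linarith
    have hV := hgr k (by omega) (Real.log n) t1 t2
    have hcard : ((4 : ℝ)) ^ DP u δ k ≤ C * (DP u δ k + 1) * (Pr (DP u δ k)).card := by
      have := hC (DP u δ k)
      exact_mod_cast this
    have hpos : (0 : ℝ) < C * (DP u δ k + 1) := by positivity
    have h4 : Real.exp (u (Real.log n)) * 2 ≤ (Pr (DP u δ k)).card := by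
      have h5 : (C * (DP u δ k + 1) : ℝ) * (Real.exp (u (Real.log n)) * 2) ≤
          (C * (DP u δ k + 1)) * (Pr (DP u δ k)).card := by
        calc (C * (DP u δ k + 1) : ℝ) * (Real.exp (u (Real.log n)) * 2)
            = Real.exp (u (Real.log n)) * (2 * C * (DP u δ k + 1)) := by ring
          _ ≤ _ := hV
          _ ≤ _ := hcard
      exact le_of_mul_le_mul_left h5 hpos
    have h6 : ((Pr (DP u δ k)).card : ℝ) ≤ 2 * (((Pr (DP u δ k)).card + 1) / 2 : ℕ) := by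
      have : (Pr (DP u δ k)).card ≤ 2 * (((Pr (DP u δ k)).card + 1) / 2) := by omega
      exact_mod_cast this
    have h7 : (((((Pr (DP u δ k)).card + 1) / 2 : ℕ)) : ℝ) ≤
        (AP (DP u δ) k₀ q lg ∩ Set.Iic n).ncard := by
      have h8 := g3 k hk
      have h9 : (AP (DP u δ) k₀ q lg ∩ Set.Iic (4 ^ TT k)).ncard ≤
          (AP (DP u δ) k₀ q lg ∩ Set.Iic n).ncard := by
        refine Set.ncard_le_ncard ?_ ((Set.finite_Iic n).subset Set.inter_subset_right)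
        exact Set.inter_subset_inter_right _ (Set.Iic_subset_Iic.2 hge)
      exact_mod_cast le_trans h8 h9
    linarith

/-- **Profile theorem.** -/
theorem main (u : ℝ → ℝ) (δ : ℝ) (hδ : 0 < δ) (h1 : ∀ t, 1 ≤ t → u t ≤ (1 / 2 - δ) * t)
    (h2 : ∀ s t, 1 ≤ s → s < t → u s + u t ≤ s - δ * t ∨ 2 * u s + u t ≤ (1 - δ) * t) :
    ∃ A : Set ℕ, A.Infinite ∧ 0 ∉ A ∧
      (∀ a ∈ A, ∀ b ∈ A, ∀ c ∈ A, ∀ d ∈ A, a + b = c + d → (a = c ∧ b = d) ∨ (a = d ∧ b = c)) ∧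
      ∃ n₀ : ℕ, ∀ n : ℕ, n₀ ≤ n → Real.exp (u (Real.log n)) ≤ (A ∩ Set.Iic n).ncard := by
  refine main_aux (u := u) (δ := min δ (1 / 4)) ⟨lt_min hδ (by norm_num), min_le_right _ _, ?_, ?_⟩
  · intro t ht
    have := h1 t ht
    have h3 : min δ (1 / 4) ≤ δ := min_le_left _ _
    nlinarith
  · intro s t hs hst
    have h3 : min δ (1 / 4) ≤ δ := min_le_left _ _
    have ht : 0 < t := by linarith
    rcases h2 s t hs hst with h | h
    · left; nlinarith
    · right; nlinarith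

end BGP
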