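import Pool.Agent.Lib.MP_be7f9f_nt_P.Defs
import Pool.Agent.Lib.MP_be7f9f_nt.SumEq
import Pool.Agent.Lib.MP_be7f9f_nt.ToMod

/-!
# The set `AP` is a Sidon set

Proof of `b2P`: exactly the proof of `BG.b2` (Pool/Agent/Lib/MP_be7f9f_nt/B2.lean) with `g = 1` and
`DD c k` replaced by `D k` everywhere (copy the file; its private lemmas do not mention `DD`
except `b2_pair`).  `zero_notMemP`: copy of `BG.zero_notMem`.
`sidon_of_isB`: order the two pairs (`x ≤ y`); if they were different, the set in `IsB 1` would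
have two elements (`Set.encard_le_one_iff`).
-/

namespace BGP

open BG

/-- The set `AP` with the number `g` of representations as a parameter. -/
private def APg (D : ℕ → ℕ) (g k₀ : ℕ) (q : ℕ → ℕ) (lg : ℕ → ℕ → ℕ) : Set ℕ :=
  {a | ∃ k, k₀ ≤ k ∧ ∃ p ∈ Pr (D k),
    (∀ j ∈ Finset.Ico k₀ k, ¬ Bad g (QQ q j) (RR q j k) (Pr (D k)) (Pr (D j)) p) ∧
    a = el q lg k p}

private theorem b2_prime {n a : ℕ} (h : a ∈ Pr n) : a.Prime := (Finset.mem_filter.1 h).2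

private theorem b2_lt {n a : ℕ} (h : a ∈ Pr n) : 4 ^ n < a :=
  (Finset.mem_Ioc.1 (Finset.mem_filter.1 h).1).1

private theorem b2_le {n a : ℕ} (h : a ∈ Pr n) : a ≤ 4 ^ (n + 1) :=
  (Finset.mem_Ioc.1 (Finset.mem_filter.1 h).1).2

private theorem b2_coprime {q : ℕ → ℕ} (hq : ∀ i, q i ∈ Pr i) {D k p : ℕ} (hp : p ∈ Pr D)
    (hk : k ≤ D) {i : ℕ} (hi : i < k) : p.Coprime (q i) := by
  rw [Nat.coprime_primes (b2_prime hp) (b2_prime (hq i))]
  have h1 := b2_lt hp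
  have h2 := b2_le (hq i)
  have h3 : 4 ^ (i + 1) ≤ 4 ^ D := Nat.pow_le_pow_right (by norm_num) (by omega)
  omega

private theorem b2_QQ {q : ℕ → ℕ} (hq : ∀ i, q i ∈ Pr i) {k : ℕ} (hk : 1 ≤ k) :
    4 ^ NN k < QQ q k := by
  unfold NN QQ
  rw [← Finset.prod_pow_eq_pow_sum]
  exact Finset.prod_lt_prod_of_nonempty (fun i _ => by positivity) (fun i _ => b2_lt (hq i))
    ⟨0, Finset.mem_range.2 hk⟩

/-- the two elements of a pair, the first one in the block of larger index -/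
private theorem b2_pair {D : ℕ → ℕ} {g k₀ : ℕ} {q : ℕ → ℕ} {lg : ℕ → ℕ → ℕ} {x y : ℕ}
    (hx : x ∈ APg D g k₀ q lg) (hy : y ∈ APg D g k₀ q lg) (hxy : x ≤ y) :
    ∃ K P J R : ℕ, k₀ ≤ J ∧ J ≤ K ∧ P ∈ Pr (D K) ∧ R ∈ Pr (D J) ∧
      (∀ j ∈ Finset.Ico k₀ K, ¬ Bad g (QQ q j) (RR q j K) (Pr (D K)) (Pr (D j)) P) ∧
      el q lg K P + el q lg J R = x + y ∧
      (x, y) = (min (el q lg K P) (el q lg J R), max (el q lg K P) (el q lg J R)) := by
  obtain ⟨k, hk, p, hp, hbad, rfl⟩ := hx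
  obtain ⟨l, hl, r, hr, hbad', rfl⟩ := hy
  rcases le_total l k with h | h
  · exact ⟨k, p, l, r, hl, h, hp, hr, hbad, rfl, by rw [min_eq_left hxy, max_eq_right hxy]⟩
  · exact ⟨l, r, k, p, hk, h, hr, hp, hbad', add_comm _ _,
      by rw [min_eq_right hxy, max_eq_left hxy]⟩

private theorem b2_gen (D : ℕ → ℕ) (g k₀ : ℕ) (hg : 1 ≤ g) (q : ℕ → ℕ) (hq : ∀ i, q i ∈ Pr i)
    (lg : ℕ → ℕ → ℕ) (hlg : IsLog lg) (h1 : ∀ k, k₀ ≤ k → k ≤ D k)
    (h2 : ∀ k, k₀ ≤ k → 2 * D k + 2 ≤ NN k) : IsB g (APg D g k₀ q lg) := by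
  intro n
  by_contra hcon
  rw [not_le] at hcon
  have hle : ((g + 1 : ℕ) : ℕ∞) ≤ {x : ℕ × ℕ | x.1 ∈ APg D g k₀ q lg ∧
      x.2 ∈ APg D g k₀ q lg ∧ x.1 ≤ x.2 ∧ x.1 + x.2 = n}.encard := by
    push_cast
    exact Order.add_one_le_of_lt hcon
  obtain ⟨t, hts, htc⟩ := Set.exists_subset_encard_eq hle
  have hfin : t.Finite := Set.finite_of_encard_eq_coe htc
  have : Finite t := hfin
  have hcard : Nat.card t = g + 1 := by
    have h3 : t.ncard = g + 1 := by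
      rw [Set.ncard, htc]
      exact ENat.toNat_natCast _
    rw [← h3]
    exact Nat.card_coe_set_eq t
  let e := Finite.equivFinOfCardEq hcard
  let F : Fin (g + 1) → ℕ × ℕ := fun s => (e.symm s).1
  have hFinj : Function.Injective F := fun a b hab => e.symm.injective (Subtype.ext hab)
  have hF : ∀ s, (F s).1 ∈ APg D g k₀ q lg ∧ (F s).2 ∈ APg D g k₀ q lg ∧
      (F s).1 ≤ (F s).2 ∧ (F s).1 + (F s).2 = n := fun s => hts (e.symm s).2
  have hdat := fun s => b2_pair (hF s).1 (hF s).2.1 (hF s).2.2.1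
  choose K P J R hk₀ hJK hP hR hbad hsum hpair using hdat
  have hlt : ∀ i a, lg (q i) a < q i := fun i a => (hlg (q i) (b2_prime (hq i))).1 a
  have hse : ∀ s s', K s = K s' ∧ J s = J s' ∧
      (∀ i < J s, lg (q i) (P s) + lg (q i) (R s) = lg (q i) (P s') + lg (q i) (R s')) ∧
      ∀ i, J s ≤ i → i < K s → lg (q i) (P s) = lg (q i) (P s') := by
    intro s s'
    refine sum_eq q lg hlt (hJK s) (hJK s') ?_
    rw [hsum s, hsum s', (hF s).2.2.2, (hF s').2.2.2]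
  have hK : ∀ s, K s = K 0 := fun s => (hse s 0).1
  have hJ : ∀ s, J s = J 0 := fun s => (hse s 0).2.1
  have hmod : ∀ s, P s * R s ≡ P 0 * R 0 [MOD QQ q (J 0)] ∧
      P s ≡ P 0 [MOD RR q (J 0) (K 0)] := by
    intro s
    obtain ⟨-, -, h3, h4⟩ := hse s 0
    rw [hJ s] at h3 h4
    rw [hK s] at h4
    refine to_mod q hq lg hlg (hJK 0) (fun i hi => ?_) (fun i hi => ?_) (fun i hi => ?_)
      (fun i hi => ?_) h3 h4
    · have := hP s
      rw [hK s] at this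
      exact b2_coprime hq this (h1 _ ((hk₀ 0).trans (hJK 0))) hi
    · exact b2_coprime hq (hP 0) (h1 _ ((hk₀ 0).trans (hJK 0))) hi
    · have := hR s
      rw [hJ s] at this
      exact b2_coprime hq this (h1 _ (hk₀ 0)) hi
    · exact b2_coprime hq (hR 0) (h1 _ (hk₀ 0)) hi
  have hFe : ∀ s, F s = (min (el q lg (K 0) (P s)) (el q lg (J 0) (R s)),
      max (el q lg (K 0) (P s)) (el q lg (J 0) (R s))) := by
    intro s
    have h3 := hpair s
    rw [hK s, hJ s] at h3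
    exact h3
  rcases (hJK 0).eq_or_lt with hEq | hLt
  · -- equal blocks
    have hNN := h2 (K 0) ((hk₀ 0).trans (hJK 0))
    have hK1 : 1 ≤ K 0 := by
      rcases Nat.eq_zero_or_pos (K 0) with h0 | h0
      · rw [h0] at hNN
        have : NN 0 = 0 := rfl
        omega
      · exact h0
    have hQ := b2_QQ hq hK1
    have hprod : ∀ s, P s * R s < QQ q (K 0) := by
      intro s
      have h3 := b2_le (hP s)
      have h4 := b2_le (hR s)
      rw [hK s] at h3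
      rw [hJ s, hEq] at h4
      calc P s * R s ≤ 4 ^ (D (K 0) + 1) * 4 ^ (D (K 0) + 1) := Nat.mul_le_mul h3 h4
        _ = 4 ^ (2 * D (K 0) + 2) := by rw [← pow_add]; congr 1; ring
        _ ≤ 4 ^ NN (K 0) := Nat.pow_le_pow_right (by norm_num) hNN
        _ < _ := hQ
    have hone : (1 : Fin (g + 1)) ≠ 0 := by
      intro h
      have h3 := congrArg Fin.val h
      rw [Fin.val_zero, Fin.val_one'] at h3
      rw [Nat.mod_eq_of_lt (by omega)] at h3
      omega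
    apply hone
    apply hFinj
    have h3 := (hmod 1).1
    rw [hEq] at h3
    have h4 : P 1 * R 1 = P 0 * R 0 := Nat.ModEq.eq_of_lt_of_lt h3 (hprod 1) (hprod 0)
    have pP1 := b2_prime (hP 1)
    have pP0 := b2_prime (hP 0)
    have pR0 := b2_prime (hR 0)
    rw [hFe 1, hFe 0, hEq]
    have h5 : P 1 ∣ P 0 * R 0 := Dvd.intro _ h4
    rcases (Nat.Prime.dvd_mul pP1).1 h5 with h6 | h6
    · have h7 : P 1 = P 0 := (Nat.prime_dvd_prime_iff_eq pP1 pP0).1 h6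
      have h8 : R 1 = R 0 := by
        rw [h7] at h4
        exact Nat.eq_of_mul_eq_mul_left pP0.pos h4
      rw [h7, h8]
    · have h7 : P 1 = R 0 := (Nat.prime_dvd_prime_iff_eq pP1 pR0).1 h6
      have h8 : R 1 = P 0 := by
        rw [h7, mul_comm (P 0)] at h4
        exact Nat.eq_of_mul_eq_mul_left pR0.pos h4
      rw [h7, h8, min_comm, max_comm]
  · -- different blocks
    refine hbad 0 (J 0) (Finset.mem_Ico.2 ⟨hk₀ 0, hLt⟩) ⟨P, R, rfl, ?_, ?_, ?_, ?_⟩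
    · intro s
      have := hP s
      rwa [hK s] at this
    · intro s
      have := hR s
      rwa [hJ s] at this
    · intro s s' h3
      apply hFinj
      have h4 : P s = P s' := congrArg Prod.fst h3
      have h5 : R s = R s' := congrArg Prod.snd h3
      rw [hFe s, hFe s', h4, h5]
    · intro s
      exact ⟨(hmod s).2, (hmod s).1⟩

private theorem zero_gen (D : ℕ → ℕ) (g k₀ : ℕ) (hk : 1 ≤ k₀) (q : ℕ → ℕ) (hq : ∀ i, q i ∈ Pr i)
    (lg : ℕ → ℕ → ℕ) : 0 ∉ APg D g k₀ q lg := by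
  rintro ⟨k, hk₀, p, -, -, h0⟩
  have h1 : (fun i => (q i + lg (q i) p) * ∏ l ∈ Finset.range i, (4 * q l)) 0 ≤
      ∑ i ∈ Finset.range k, (q i + lg (q i) p) * ∏ l ∈ Finset.range i, (4 * q l) :=
    Finset.single_le_sum (f := fun i => (q i + lg (q i) p) * ∏ l ∈ Finset.range i, (4 * q l))
      (fun i _ => Nat.zero_le _) (Finset.mem_range.2 (by omega))
  have h2 : 0 < q 0 := (b2_prime (hq 0)).pos
  simp only [Finset.range_zero, Finset.prod_empty, mul_one] at h1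
  have h3 : el q lg k p =
      ∑ i ∈ Finset.range k, (q i + lg (q i) p) * ∏ l ∈ Finset.range i, (4 * q l) := rfl
  omega

theorem b2P (D : ℕ → ℕ) (k₀ : ℕ) (q : ℕ → ℕ) (hq : ∀ i, q i ∈ Pr i) (lg : ℕ → ℕ → ℕ)
    (hlg : IsLog lg) (h1 : ∀ k, k₀ ≤ k → k ≤ D k) (h2 : ∀ k, k₀ ≤ k → 2 * D k + 2 ≤ NN k) :
    IsB 1 (AP D k₀ q lg) := by
  exact b2_gen D 1 k₀ le_rfl q hq lg hlg h1 h2

theorem zero_notMemP (D : ℕ → ℕ) (k₀ : ℕ) (hk : 1 ≤ k₀) (q : ℕ → ℕ) (hq : ∀ i, q i ∈ Pr i)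
    (lg : ℕ → ℕ → ℕ) : 0 ∉ AP D k₀ q lg := by
  exact zero_gen D 1 k₀ hk q hq lg

theorem sidon_of_isB {A : Set ℕ} (hA : IsB 1 A) {a b c d : ℕ} (ha : a ∈ A) (hb : b ∈ A)
    (hc : c ∈ A) (hd : d ∈ A) (h : a + b = c + d) : (a = c ∧ b = d) ∨ (a = d ∧ b = c) := by
  have key : ∀ x y x' y' : ℕ, x ∈ A → y ∈ A → x' ∈ A → y' ∈ A → x ≤ y → x' ≤ y' →
      x + y = x' + y' → x = x' ∧ y = y' := by
    intro x y x' y' hx hy hx' hy' h1 h2 h3
    have h4 := Set.encard_le_one_iff.1 (hA (x + y)) (x, y) (x', y') ⟨hx, hy, h1, rfl⟩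
      ⟨hx', hy', h2, h3.symm⟩
    exact Prod.mk.inj h4
  rcases le_total a b with h1 | h1 <;> rcases le_total c d with h2 | h2
  · exact Or.inl (key a b c d ha hb hc hd h1 h2 h)
  · have := key a b d c ha hb hd hc h1 h2 (by omega)
    exact Or.inr this
  · have := key b a c d hb ha hc hd h1 h2 (by omega)
    exact Or.inr ⟨this.2, this.1⟩
  · have := key b a d c hb ha hd hc h1 h2 (by omega)
    exact Or.inl ⟨this.2, this.1⟩

end BGP
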