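import Pool.Agent.Lib.MP_be7f9f_nt_P.PAsm

/-!
# Example 1: average exponent `log_2 (4/3) > √2 - 1`

For `N = exp (2 ^ i)` and `N ≤ n ≤ N ^ 2` the set has at least `n ^ (-ε) max (√N, n / N)` elements
up to `n`.

Proof.  For `t ≥ 1` let `ii t = Nat.log 2 ⌊t⌋₊`, so `2 ^ ii t ≤ t < 2 ^ (ii t + 1)`, and
`ww t = max (2 ^ ii t / 2) (t - 2 ^ ii t)`.
* `ww_pair`: for `1 ≤ s < t`: `ww s + ww t ≤ s` or `2 * ww s + ww t ≤ t`.  Put `S = 2 ^ ii s`,
  `T = 2 ^ ii t`, `S ≤ T`.  If `S = T`: for `t ≤ 3T/2` both values are `T/2`, sum `T ≤ s`; for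
  `t > 3T/2`, `ww t = t - T`; if `s ≥ 3T/2` then `ww s + ww t = s + t - 2T ≤ s`; if `s < 3T/2` then
  `2 ww s + ww t = T + t - T = t`.  If `S < T` then `2 S ≤ T` and `ww s ≤ S` (`s < 2 S`): for
  `t ≥ 3T/2`, `2 ww s + ww t ≤ T + t - T`.  For `t < 3T/2`, `ww t = T/2`; if `ww s ≤ T/4` then
  `2 ww s + ww t ≤ T ≤ t`; otherwise `4 S > T`, so `2 S = T`, `ww s = s - S` and
  `ww s + ww t = s - T/2 + T/2 = s`.
* `ww_half`: `ww t ≤ t / 2` for `t ≥ 1`.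
* `ww_eq`: if `2 ^ i ≤ t ≤ 2 ^ (i+1)` then `ww t = max (2 ^ i / 2) (t - 2 ^ i)` (for
  `t < 2 ^ (i+1)`, `ii t = i`; at `t = 2 ^ (i+1)` both sides are `2 ^ i`).
* `example1`: `main` with `u t = ww t - ε t` and `δ = ε`; `exp (u (log n)) =
  max (exp (2^i/2)) (n / exp (2^i)) * n ^ (-ε)` for `n ≥ 3`.
-/

namespace BGP

noncomputable def ii (t : ℝ) : ℕ := Nat.log 2 ⌊t⌋₊

noncomputable def ww (t : ℝ) : ℝ := max (2 ^ ii t / 2) (t - 2 ^ ii t)

private theorem ii_spec {t : ℝ} (ht : 1 ≤ t) : (2 : ℝ) ^ ii t ≤ t ∧ t < 2 * 2 ^ ii t := by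
  have h0 : ⌊t⌋₊ ≠ 0 := by
    have : 1 ≤ ⌊t⌋₊ := Nat.le_floor (by exact_mod_cast ht)
    omega
  have ht0 : 0 ≤ t := by linarith
  refine ⟨?_, ?_⟩
  · have h1 : 2 ^ ii t ≤ ⌊t⌋₊ := Nat.pow_log_le_self 2 h0
    have h2 : ((2 ^ ii t : ℕ) : ℝ) ≤ ⌊t⌋₊ := by exact_mod_cast h1
    have h3 := Nat.floor_le ht0
    push_cast at h2
    linarith
  · have h1 : ⌊t⌋₊ < 2 ^ (ii t + 1) := Nat.lt_pow_succ_log_self (by norm_num) _
    have h2 := (Nat.floor_lt ht0).1 h1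
    rw [pow_succ] at h2
    push_cast at h2
    linarith

private theorem ii_eq {t : ℝ} {i : ℕ} (h1 : 2 ^ i ≤ t) (h2 : t < 2 * 2 ^ i) : ii t = i := by
  have ht0 : 0 ≤ t := le_trans (by positivity) h1
  refine Nat.log_eq_of_pow_le_of_lt_pow ?_ ?_
  · refine Nat.le_floor ?_
    push_cast
    exact h1
  · refine (Nat.floor_lt ht0).2 ?_
    push_cast
    rw [pow_succ]
    linarith

theorem ww_pair {s t : ℝ} (hs : 1 ≤ s) (hst : s < t) : ww s + ww t ≤ s ∨ 2 * ww s + ww t ≤ t := by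
  obtain ⟨a1, a2⟩ := ii_spec hs
  obtain ⟨b1, b2⟩ := ii_spec (hs.trans hst.le)
  have hS : (0 : ℝ) < 2 ^ ii s := by positivity
  have hc : (2 : ℝ) ^ ii s = 2 ^ ii t ∨ 2 * (2 : ℝ) ^ ii s = 2 ^ ii t ∨
      4 * (2 : ℝ) ^ ii s ≤ 2 ^ ii t := by
    rcases lt_trichotomy (ii s) (ii t) with h | h | h
    · rcases Nat.lt_or_ge (ii s + 1) (ii t) with h' | h'
      · right; right
        calc 4 * (2 : ℝ) ^ ii s = 2 ^ (ii s + 2) := by rw [pow_add]; ring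
          _ ≤ 2 ^ ii t := pow_le_pow_right₀ (by norm_num) (by omega)
      · right; left
        have : ii t = ii s + 1 := by omega
        rw [this, pow_succ]; ring
    · left; rw [h]
    · exfalso
      have : (2 : ℝ) * 2 ^ ii t ≤ 2 ^ ii s := by
        calc (2 : ℝ) * 2 ^ ii t = 2 ^ (ii t + 1) := by rw [pow_succ]; ring
          _ ≤ 2 ^ ii s := pow_le_pow_right₀ (by norm_num) (by omega)
      linarith
  unfold ww
  generalize (2 : ℝ) ^ ii s = S at *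
  generalize (2 : ℝ) ^ ii t = T at *
  by_contra hcon
  rw [not_or, not_le, not_le] at hcon
  obtain ⟨c1, c2⟩ := hcon
  rcases max_cases (S / 2) (s - S) with ⟨e1, e2⟩ | ⟨e1, e2⟩ <;>
    rcases max_cases (T / 2) (t - T) with ⟨f1, f2⟩ | ⟨f1, f2⟩ <;>
    rw [e1, f1] at c1 c2 <;> rcases hc with hc | hc | hc <;> linarith

theorem ww_half {t : ℝ} (ht : 1 ≤ t) : ww t ≤ t / 2 := by
  obtain ⟨b1, b2⟩ := ii_spec ht
  unfold ww
  exact max_le (by linarith) (by linarith)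

theorem ww_eq {t : ℝ} {i : ℕ} (h1 : 2 ^ i ≤ t) (h2 : t ≤ 2 ^ (i + 1)) :
    ww t = max (2 ^ i / 2) (t - 2 ^ i) := by
  rcases h2.lt_or_eq with h | h
  · have h3 : ii t = i := ii_eq h1 (by rw [pow_succ] at h; linarith)
    unfold ww
    rw [h3]
  · have h3 : ii t = i + 1 := by
      refine ii_eq h.ge ?_
      rw [h]
      have : (0 : ℝ) < 2 ^ (i + 1) := by positivity
      linarith
    unfold ww
    rw [h3, h, pow_succ]
    have : (0 : ℝ) < 2 ^ i := by positivity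
    rw [max_eq_left (by linarith), max_eq_right (by linarith)]
    ring

theorem example1 (ε : ℝ) (hε : 0 < ε) :
    ∃ A : Set ℕ, A.Infinite ∧ 0 ∉ A ∧
      (∀ a ∈ A, ∀ b ∈ A, ∀ c ∈ A, ∀ d ∈ A, a + b = c + d → (a = c ∧ b = d) ∨ (a = d ∧ b = c)) ∧
      ∃ n₀ : ℕ, ∀ n : ℕ, n₀ ≤ n → ∀ i : ℕ, 2 ^ i ≤ Real.log n → Real.log n ≤ 2 ^ (i + 1) →
        (n : ℝ) ^ (-ε) * max (Real.exp (2 ^ i / 2)) (n / Real.exp (2 ^ i)) ≤
          (A ∩ Set.Iic n).ncard := by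
  obtain ⟨A, hinf, h0, hsid, n₀, hn₀⟩ := main (fun t => ww t - ε * t) ε hε
    (fun t ht => by
      have := ww_half ht
      show ww t - ε * t ≤ (1 / 2 - ε) * t
      linarith)
    (fun s t hs hst => by
      show (ww s - ε * s) + (ww t - ε * t) ≤ s - ε * t ∨
        2 * (ww s - ε * s) + (ww t - ε * t) ≤ (1 - ε) * t
      have h1 : 0 ≤ ε * s := mul_nonneg hε.le (by linarith)
      rcases ww_pair hs hst with h | h
      · left; linarith
      · right; linarith)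
  refine ⟨A, hinf, h0, hsid, n₀, fun n hn i h1 h2 => ?_⟩
  have h3 := hn₀ n hn
  refine le_trans (le_of_eq ?_) h3
  have hlog : 0 < Real.log n := lt_of_lt_of_le (by positivity) h1
  have hn0 : (0 : ℝ) < n := by
    rcases Nat.eq_zero_or_pos n with h | h
    · rw [h] at hlog
      simp at hlog
    · exact_mod_cast h
  show _ = Real.exp (ww (Real.log n) - ε * Real.log n)
  rw [ww_eq h1 h2, sub_eq_add_neg, Real.exp_add, Real.exp_monotone.map_max, Real.exp_sub,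
    Real.exp_log hn0, Real.rpow_def_of_pos hn0, mul_comm]
  congr 2
  ring

end BGP
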