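import Pool.Agent.Lib.MP_be7f9f_nt_P.PAsm

/-!
# Example 2: exponent `α` always, exponent `β` on long windows, `(1 + α) (1 + β) < 2`

Proof.  Apply `main` with `u t = uu t`, `uu t = β t` if `2 ^ i ≤ t ≤ θ 2 ^ i` for some `i : ℕ`, and
`uu t = α t` otherwise, and a small `δ > 0`.  Write `uu s = c s`, `uu t = c' t` with
`c, c' ∈ {α, β}`, `λ = s / t < 1`.  It is enough that `c' + 2δ ≤ λ (1 - c)` or
`c' + 2δ ≤ 1 - 2 λ c` (multiply by `t`).
* `(c, c') ≠ (β, β)`: if both fail then, adding `2 c` times the first to `1 - c` times the second,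
  `(c' + 2δ) (1 + c) > 1 - c`; but `c' + 2δ ≤ (1 - c) / (1 + c)` for small `δ`, since
  `(1 + c) (1 + c') < 2` in the three cases (`(1 + α) ^ 2 ≤ (1 + α) (1 + β) < 2`).
* `c = c' = β`: `2 ^ i ≤ s ≤ θ 2 ^ i`, `2 ^ j ≤ t ≤ θ 2 ^ j`.  If `j ≤ i` then `λ ≥ 1 / θ`
  (`s ≥ 2 ^ i ≥ 2 ^ j ≥ t / θ`) and `λ (1 - β) ≥ (1 - β) / θ > β` because `β (1 + θ) < 1`.  If
  `i < j` then `λ ≤ θ / 2` and `1 - 2 λ β ≥ 1 - θ β > β`.
`β < 1/2` because `β (1 + θ) < 1`, `1 ≤ θ`.  (Choose `δ` with `2 δ` below the minimum of the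
positive gaps `(1 - β) / θ - β`, `1 - θ β - β`, `(1 - c) / (1 + c) - c'`, and `δ ≤ 1/2 - β`.)
Finally `exp (α log n) = n ^ α`.
-/

namespace BGP

open Classical in
noncomputable def uu (α β θ t : ℝ) : ℝ :=
  if ∃ i : ℕ, 2 ^ i ≤ t ∧ t ≤ θ * 2 ^ i then β * t else α * t

theorem uu_pair {α β θ : ℝ} (hα : 0 < α) (hαβ : α ≤ β) (h : (1 + α) * (1 + β) < 2) (hθ : 1 ≤ θ)
    (hβ : β * (1 + θ) < 1) : ∃ δ : ℝ, 0 < δ ∧ (∀ t, 1 ≤ t → uu α β θ t ≤ (1 / 2 - δ) * t) ∧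
    ∀ s t, 1 ≤ s → s < t → uu α β θ s + uu α β θ t ≤ s - δ * t ∨
      2 * uu α β θ s + uu α β θ t ≤ (1 - δ) * t := by
  have hβ0 : 0 < β := lt_of_lt_of_le hα hαβ
  have hθ0 : 0 < θ := by linarith
  obtain ⟨G, hG⟩ : ∃ G : ℝ, G = 2 - (1 + α) * (1 + β) := ⟨_, rfl⟩
  obtain ⟨H, hH⟩ : ∃ H : ℝ, H = 1 - β * (1 + θ) := ⟨_, rfl⟩
  have hG0 : 0 < G := by linarith
  have hH0 : 0 < H := by linarith
  have hβθ : β * 1 ≤ β * θ := mul_le_mul_of_nonneg_left hθ hβ0.le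
  obtain ⟨δ, hδ⟩ : ∃ δ : ℝ, δ = min (G / 4) (H / (2 * θ)) := ⟨_, rfl⟩
  have hδ0 : 0 < δ := by
    rw [hδ]
    exact lt_min (by positivity) (by positivity)
  have hδG : 4 * δ ≤ G := by
    have := min_le_left (G / 4) (H / (2 * θ))
    rw [← hδ] at this
    linarith
  have hδH : 2 * (δ * θ) ≤ H := by
    have h1 := min_le_right (G / 4) (H / (2 * θ))
    rw [← hδ, le_div_iff₀ (by positivity)] at h1
    linarith
  have hδθ : δ * 1 ≤ δ * θ := mul_le_mul_of_nonneg_left hθ hδ0.le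
  refine ⟨δ, hδ0, ?_, ?_⟩
  · intro t ht
    unfold uu
    have h1 : β * t ≤ (1 / 2 - δ) * t := mul_le_mul_of_nonneg_right (by linarith) (by linarith)
    have h2 : α * t ≤ β * t := mul_le_mul_of_nonneg_right hαβ (by linarith)
    split_ifs
    · exact h1
    · exact h2.trans h1
  · intro s t hs hst
    have ht : 0 < t := by linarith
    have hs0 : 0 < s := by linarith
    have key : ∀ c c' : ℝ, 0 < c → c ≤ β → c' ≤ β → (1 + c) * (1 + c') ≤ (1 + α) * (1 + β) →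
        c * s + c' * t ≤ s - δ * t ∨ 2 * (c * s) + c' * t ≤ (1 - δ) * t := by
      intro c c' hc hcβ hc'β hcc
      by_contra hcon
      push Not at hcon
      obtain ⟨h1, h2⟩ := hcon
      have h3 : (1 - c) * s < (c' + δ) * t := by linarith
      have h4 : (1 - δ - c') * t < 2 * c * s := by linarith
      have hc1 : 0 < 1 - c := by linarith
      have h5 : 2 * c * ((1 - c) * s) < 2 * c * ((c' + δ) * t) :=
        mul_lt_mul_of_pos_left h3 (by linarith)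
      have h6 : (1 - c) * ((1 - δ - c') * t) < (1 - c) * (2 * c * s) :=
        mul_lt_mul_of_pos_left h4 hc1
      have h7 : (1 - c) * (1 - δ - c') * t < 2 * c * (c' + δ) * t := by
        linarith
      have h8 := lt_of_mul_lt_mul_right h7 ht.le
      have h9 : δ * (1 + c) ≤ δ * 2 := mul_le_mul_of_nonneg_left (by linarith) hδ0.le
      nlinarith
    unfold uu
    by_cases h1 : ∃ i : ℕ, 2 ^ i ≤ s ∧ s ≤ θ * 2 ^ i
    · by_cases h2 : ∃ i : ℕ, 2 ^ i ≤ t ∧ t ≤ θ * 2 ^ i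
      · rw [if_pos h1, if_pos h2]
        obtain ⟨i, hi1, hi2⟩ := h1
        obtain ⟨j, hj1, hj2⟩ := h2
        rcases le_or_gt j i with hij | hij
        · left
          have h3 : (2 : ℝ) ^ j ≤ 2 ^ i := pow_le_pow_right₀ (by norm_num) hij
          have h4 : t ≤ θ * s := hj2.trans (mul_le_mul_of_nonneg_left (h3.trans hi1) hθ0.le)
          have h5 : (β + δ) * t ≤ (β + δ) * (θ * s) :=
            mul_le_mul_of_nonneg_left h4 (by linarith)
          have h6 : (β + δ) * θ * s ≤ (1 - β) * s :=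
            mul_le_mul_of_nonneg_right (by linarith) hs0.le
          linarith
        · right
          have h3 : (2 : ℝ) ^ (i + 1) ≤ 2 ^ j := pow_le_pow_right₀ (by norm_num) hij
          rw [pow_succ] at h3
          have h4 : θ * (2 ^ i * 2) ≤ θ * t := mul_le_mul_of_nonneg_left (h3.trans hj1) hθ0.le
          have h5 : 2 * s ≤ θ * t := by linarith
          have h6 : β * (2 * s) ≤ β * (θ * t) := mul_le_mul_of_nonneg_left h5 hβ0.le
          have h7 : (β * (1 + θ)) * t ≤ (1 - δ) * t :=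
            mul_le_mul_of_nonneg_right (by linarith) ht.le
          linarith
      · rw [if_pos h1, if_neg h2]
        exact key β α hβ0 le_rfl hαβ (by linarith)
    · by_cases h2 : ∃ i : ℕ, 2 ^ i ≤ t ∧ t ≤ θ * 2 ^ i
      · rw [if_neg h1, if_pos h2]
        exact key α β hα hαβ le_rfl le_rfl
      · rw [if_neg h1, if_neg h2]
        exact key α α hα hαβ hαβ (mul_le_mul_of_nonneg_left (by linarith) (by linarith))

theorem example2 (α β θ : ℝ) (hα : 0 < α) (hαβ : α ≤ β) (h : (1 + α) * (1 + β) < 2) (hθ : 1 ≤ θ)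
    (hβ : β * (1 + θ) < 1) :
    ∃ A : Set ℕ, A.Infinite ∧ 0 ∉ A ∧
      (∀ a ∈ A, ∀ b ∈ A, ∀ c ∈ A, ∀ d ∈ A, a + b = c + d → (a = c ∧ b = d) ∨ (a = d ∧ b = c)) ∧
      ∃ n₀ : ℕ, ∀ n : ℕ, n₀ ≤ n → (n : ℝ) ^ α ≤ (A ∩ Set.Iic n).ncard ∧
        ∀ i : ℕ, 2 ^ i ≤ Real.log n → Real.log n ≤ θ * 2 ^ i →
          (n : ℝ) ^ β ≤ (A ∩ Set.Iic n).ncard := by
  obtain ⟨δ, hδ, h1, h2⟩ := uu_pair hα hαβ h hθ hβ
  obtain ⟨A, hA1, hA2, hA3, n₀, hn₀⟩ := main (uu α β θ) δ hδ h1 h2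
  refine ⟨A, hA1, hA2, hA3, max n₀ 1, fun n hn => ?_⟩
  have hn0 : n₀ ≤ n := (le_max_left _ _).trans hn
  have hn1 : 1 ≤ n := (le_max_right _ _).trans hn
  have hnr : (1 : ℝ) ≤ n := by exact_mod_cast hn1
  have hnp : (0 : ℝ) < n := by linarith
  have hlog : 0 ≤ Real.log n := Real.log_nonneg hnr
  have hmain := hn₀ n hn0
  constructor
  · refine le_trans ?_ hmain
    rw [Real.rpow_def_of_pos hnp, Real.exp_le_exp]
    unfold uu
    have h3 : α * Real.log n ≤ β * Real.log n := mul_le_mul_of_nonneg_right hαβ hlog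
    split_ifs <;> linarith
  · intro i hi1 hi2
    refine le_trans (le_of_eq ?_) hmain
    rw [Real.rpow_def_of_pos hnp]
    unfold uu
    rw [if_pos ⟨i, hi1, hi2⟩, mul_comm]

end BGP
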