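import Pool.Agent.Lib.MP_be7f9f_nt_P.PV

/-!
# Regularity of the block sizes `DP u δ k`

Let `x k = VV u k + (δ/100) TT k`, `DP u δ k = ⌊x k⌋₊`.  As `VV u k ≥ VV u 0` (`VV_mono`), `x k ≥ 0`
for large `k` (`TT_large`), so `x k - 1 ≤ DP u δ k ≤ x k` (`Nat.floor_le`, `Nat.lt_floor_add_one`):
this is `DP_near`.  Then for large `k`:
* `k ≤ DP`: `x k - 1 ≥ VV u 0 + (δ/100) TT k - 1 ≥ k`;
* `2 DP + 2 ≤ NN k = TT k - 2 k`: `2 x k + 2 ≤ (1 - 2δ) (TT k + k + 2) + (δ/50) TT k + 2`;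
* `DP j < DP k` for `j < k`: `x k - x j ≥ (δ/100) (TT k - TT j) ≥ (δ/100) (j + 2) ≥ 1`
  (`TT k ≥ TT (j+1) = TT j + j + 2`), so `⌊x k⌋₊ ≥ ⌊x j + 1⌋₊ = ⌊x j⌋₊ + 1`.
-/

namespace BGP

open BG

variable {u : ℝ → ℝ} {δ : ℝ}

theorem DP_near (hu : Prof u δ) : ∃ k₀ : ℕ, ∀ k : ℕ, k₀ ≤ k →
    (DP u δ k : ℝ) ≤ VV u k + δ / 100 * TT k ∧ VV u k + δ / 100 * TT k - 1 ≤ DP u δ k := by
  have hδ := hu.pos
  obtain ⟨k₀, hk₀⟩ := TT_large (δ := δ / 100) (by positivity) 0 (-VV u 0)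
  refine ⟨k₀, fun k hk => ?_⟩
  have h1 := hk₀ k hk
  have h2 := VV_mono hu (Nat.zero_le k)
  have h3 : 0 ≤ VV u k + δ / 100 * TT k := by linarith
  have h4 : (DP u δ k : ℝ) ≤ VV u k + δ / 100 * TT k := Nat.floor_le h3
  have h5 : VV u k + δ / 100 * TT k < DP u δ k + 1 := Nat.lt_floor_add_one _
  exact ⟨h4, by linarith⟩

theorem regP (hu : Prof u δ) : ∃ k₀ : ℕ, 1 ≤ k₀ ∧ ∀ k : ℕ, k₀ ≤ k →
    k ≤ DP u δ k ∧ 2 * DP u δ k + 2 ≤ NN k ∧ ∀ j : ℕ, k₀ ≤ j → j < k → DP u δ j < DP u δ k := by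
  have hδ := hu.pos
  obtain ⟨k₁, h₁⟩ := DP_near hu
  obtain ⟨k₂, h₂⟩ := TT_large (δ := δ / 100) (by positivity) 1 (1 - VV u 0)
  obtain ⟨k₃, h₃⟩ := TT_large hδ 3 4
  obtain ⟨k₄, h₄⟩ := exists_nat_ge (100 / δ)
  refine ⟨k₁ + k₂ + k₃ + k₄ + 1, by omega, fun k hk => ?_⟩
  obtain ⟨a1, a2⟩ := h₁ k (by omega)
  have a3 := h₂ k (by omega)
  have a4 := h₃ k (by omega)
  have a5 := VV_mono hu (Nat.zero_le k)
  have a6 := VV_le hu k
  have hT : (0 : ℝ) ≤ TT k := Nat.cast_nonneg _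
  have hK : (0 : ℝ) ≤ k := Nat.cast_nonneg _
  refine ⟨?_, ?_, fun j hj hjk => ?_⟩
  · have h : (k : ℝ) ≤ DP u δ k := by linarith
    exact_mod_cast h
  · have h1 : (NN k : ℝ) = TT k - 2 * k := by
      unfold TT
      push_cast
      ring
    have h2 : ((TT (k + 1) : ℕ) : ℝ) = TT k + k + 2 := by
      rw [TT_succ]
      push_cast
      ring
    rw [h2] at a6
    have h3 : (2 * (DP u δ k : ℝ) + 2) ≤ NN k := by
      rw [h1]
      have h4 : (1 / 2 - δ) * ((TT k : ℝ) + k + 2) ≤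
          (1 / 2 - δ) * TT k + (1 / 2) * (k + 2) := by
        have : 0 ≤ δ * ((k : ℝ) + 2) := by positivity
        linarith
      have h5 : 0 ≤ δ * (TT k : ℝ) := by positivity
      linarith
    exact_mod_cast h3
  · obtain ⟨b1, b2⟩ := h₁ j (by omega)
    have b3 := VV_mono hu hjk.le
    have b4 : TT (j + 1) ≤ TT k := TT_mono hjk
    rw [TT_succ] at b4
    have b5 : (TT j : ℝ) + j + 2 ≤ TT k := by exact_mod_cast b4
    have b6 : (k₄ : ℝ) ≤ j := by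
      have : k₄ ≤ j := by omega
      exact_mod_cast this
    have b7 : 100 / δ ≤ (j : ℝ) + 2 := by linarith
    rw [div_le_iff₀ hδ] at b7
    have b8 : δ / 100 * ((TT j : ℝ) + j + 2) ≤ δ / 100 * TT k :=
      mul_le_mul_of_nonneg_left b5 (by positivity)
    have b9 : 1 ≤ δ / 100 * ((j : ℝ) + 2) := by linarith
    have b10 : DP u δ j + 1 ≤ DP u δ k := by
      refine Nat.le_floor ?_
      push_cast
      linarith
    omega

end BGP
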