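import Pool.Agent.Lib.MP_be7f9f_nt_P.Defs

/-!
# The block exponents `VV u k`

`L = log 4 > 1`.  Proofs.
* `VS_bdd`: for `1 ≤ r ≤ L * TT (k+1)`, `u r / L ≤ (1/2 - δ) r / L ≤ (1/2 - δ) TT (k+1)`.
* `VS_ne`: `r = 1` (`L ≥ 1`, `TT (k+1) ≥ 1`).
* `VV_le`: `csSup_le`.  `VV_mono`: `csSup_le_csSup` (`TT_mono`).
* `exists_near`: `exists_lt_of_lt_csSup` with `VV u k - 1 < VV u k`.
* `le_VV`: `le_csSup`.
-/

namespace BGP

open BG

variable {u : ℝ → ℝ} {δ : ℝ}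

private theorem log4_gt : 1 < Real.log 4 := by
  have h1 : Real.log 4 = 2 * Real.log 2 := by
    rw [show (4 : ℝ) = 2 ^ 2 by norm_num, Real.log_pow]
    push_cast
    ring
  have := Real.log_two_gt_d9
  rw [h1]
  linarith

theorem VS_bdd (hu : Prof u δ) (k : ℕ) : ∀ x ∈ VS u k, x ≤ (1 / 2 - δ) * TT (k + 1) := by
  rintro x ⟨r, h1, h2, rfl⟩
  have hL : 0 < Real.log 4 := lt_trans one_pos log4_gt
  have h3 := hu.half r h1
  have h4 : 0 ≤ 1 / 2 - δ := by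
    have := hu.le
    linarith
  rw [div_le_iff₀ hL]
  have h5 := mul_le_mul_of_nonneg_left h2 h4
  linarith

theorem VS_ne (u : ℝ → ℝ) (k : ℕ) : (VS u k).Nonempty := by
  refine ⟨u 1 / Real.log 4, 1, le_rfl, ?_, rfl⟩
  have h1 : (1 : ℝ) ≤ TT (k + 1) := by
    have : 1 ≤ TT (k + 1) := by
      rw [TT_succ]
      omega
    exact_mod_cast this
  nlinarith [log4_gt]

theorem VV_le (hu : Prof u δ) (k : ℕ) : VV u k ≤ (1 / 2 - δ) * TT (k + 1) := by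
  exact csSup_le (VS_ne u k) (VS_bdd hu k)

theorem VV_mono (hu : Prof u δ) {j k : ℕ} (h : j ≤ k) : VV u j ≤ VV u k := by
  refine csSup_le_csSup ⟨_, VS_bdd hu k⟩ (VS_ne u j) ?_
  rintro x ⟨r, h1, h2, rfl⟩
  refine ⟨r, h1, h2.trans ?_, rfl⟩
  have h3 : (TT (j + 1) : ℝ) ≤ TT (k + 1) := by
    exact_mod_cast TT_mono (Nat.succ_le_succ h)
  exact mul_le_mul_of_nonneg_left h3 (lt_trans one_pos log4_gt).le

theorem exists_near (hu : Prof u δ) (k : ℕ) : ∃ r : ℝ, 1 ≤ r ∧ r ≤ Real.log 4 * TT (k + 1) ∧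
    VV u k - 1 ≤ u r / Real.log 4 := by
  have h1 : VV u k - 1 < sSup (VS u k) := by
    change VV u k - 1 < VV u k
    linarith
  obtain ⟨x, ⟨r, h2, h3, rfl⟩, h4⟩ := exists_lt_of_lt_csSup (VS_ne u k) h1
  exact ⟨r, h2, h3, h4.le⟩

theorem le_VV (hu : Prof u δ) (k : ℕ) {r : ℝ} (h1 : 1 ≤ r) (h2 : r ≤ Real.log 4 * TT (k + 1)) :
    u r ≤ Real.log 4 * VV u k := by
  have hL : 0 < Real.log 4 := lt_trans one_pos log4_gt
  have h3 : u r / Real.log 4 ≤ VV u k := le_csSup ⟨_, VS_bdd hu k⟩ ⟨r, h1, h2, rfl⟩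
  rw [div_le_iff₀ hL] at h3
  linarith

end BGP
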